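import Pool.Agent.H631.PC.Prep

/-!
# Amalgamation of a prepared condition with a condition below its root
-/

set_option autoImplicit false
set_option linter.unusedSectionVars false

namespace Pool.Agent.H631.PC

open Classical

variable {M I W : Type} {rs : I → Prop} [LinearOrder W] [WellFoundedLT W] {Γ : Par M W rs}

theorem Val.toUniv {T : Set I} (hT : Low Γ T) {x : Nm M rs} (hx : Supp T x) {t : Cond M rs}
    {n v : ℕ} (h : Val (le Γ T) t x n v) : Val (le Γ Set.univ) t x n v :=
  (Val.iff_of_supp hT (Set.subset_univ _) hx).2 h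

/-- the common root `u` of `p` and other conditions, and an extension `u'` of `u` -/
theorem amalg {lv : I → W} (hG : Good Γ lv) {p u u' : Cond M rs} {R : Finset I}
    (hp : Prepared Γ lv Set.univ p)
    (hst : ∀ i ∈ R, (p i).stem = (u i).stem) (hu' : le Γ Set.univ u' u)
    (hlen : ∀ j ∈ R, rs j → (u' j).pr.card + (p j).pr.card ≤ (u' j).stem.length)
    (hdis : ∀ i ∉ R, p i = CV.top ∨ u' i = CV.top)
    (hc : ∀ j ∈ R, ∀ k ∈ (p j).pr, k ∉ (u j).pr → ∀ x c ε, Γ.req j k = some (x, c, ε) →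
      c ∉ R ∧ u' c = CV.top)
    (hcoh : ∀ j ∈ R, ∀ k ∈ (p j).pr, k ∉ (u j).pr → ∀ x c ε, Γ.req j k = some (x, c, ε) →
      ∀ j' ∈ R, ∀ k' ∈ (p j').pr, k' ∉ (u j').pr → ∀ x' ε', Γ.req j' k' = some (x', c, ε') →
        ε = ε') :
    ∃ P : Cond M rs, le Γ Set.univ P p ∧ le Γ Set.univ P u' ∧
      ∀ i ∉ R, u' i = CV.top → (∀ j k x ε, Γ.req j k ≠ some (x, i, ε)) → P i = p i := by
  obtain ⟨m, hm⟩ : ∃ m : ℕ, ∀ j ∈ R, (u' j).stem.length ≤ m :=
    ⟨R.sup fun j => (u' j).stem.length, fun j hj =>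
      Finset.le_sup (f := fun j => (u' j).stem.length) hj⟩
  let sp : I → Prop := fun c => ∃ j ∈ R, ∃ k ∈ (p j).pr, k ∉ (u j).pr ∧
    ∃ x ε, Γ.req j k = some (x, c, ε)
  have hspc : ∀ c, sp c → ¬ rs c ∧ c ∉ R ∧ u' c = CV.top := by
    rintro c ⟨j, hj, k, hk, hk', x, ε, hx⟩
    exact ⟨(hG.part j k x c ε hx).2.2.2.1, hc j hj k hk hk' x c ε hx⟩
  have hspfin : {i | sp i}.Finite := by
    refine Set.Finite.subset (s := ⋃ j ∈ R, ⋃ k ∈ (p j).pr,
      {c | ∃ x ε, Γ.req j k = some (x, c, ε)}) ?_ ?_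
    · refine Set.Finite.biUnion (Finset.finite_toSet R) fun j _ => ?_
      refine Set.Finite.biUnion (Finset.finite_toSet _) fun k _ => ?_
      refine Set.Subsingleton.finite ?_
      rintro c ⟨x, ε, hc⟩ c' ⟨x', ε', hc'⟩
      rw [hc] at hc'
      have h5 := (Prod.mk.inj (Option.some_injective _ hc')).2
      exact (Prod.mk.inj h5).1
    · rintro c ⟨j, hj, k, hk, _, x, ε, hx⟩
      simp only [Set.mem_iUnion]
      exact ⟨j, hj, k, hk, x, ε, hx⟩
  -- the inactive value
  have hw : ∀ c, ∃ e, ∀ j ∈ R, ∀ k ∈ (p j).pr, k ∉ (u j).pr → ∀ x ε,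
      Γ.req j k = some (x, c, ε) → Val (le Γ Set.univ) p ε 0 e := by
    intro c
    by_cases hs : sp c
    · obtain ⟨j, hj, k, hk, hk', x, ε, hx⟩ := hs
      obtain ⟨e, he⟩ := hp.dec j (Set.mem_univ _) k hk x c ε hx
      refine ⟨e, fun j' hj' k1 hk1 hk1' x' ε' hx' => ?_⟩
      have h1 := hcoh j hj k hk hk' x c ε hx j' hj' k1 hk1 hk1' x' ε' hx'
      subst h1
      exact he.toUniv (low_below _) (hG.part j k x c ε hx).2.2.2.2.2
    · refine ⟨0, fun j hj k hk hk' x ε hx => ?_⟩
      exact absurd ⟨j, hj, k, hk, hk', x, ε, hx⟩ hs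
  choose w hw using hw
  let f : I → CV M := fun i =>
    if i ∈ R then ⟨(u' i).stem, (u' i).pr ∪ (p i).pr⟩
    else if sp i then
      ⟨(p i).stem ++ List.replicate (m - (p i).stem.length) (Finset.range (w i)), (p i).pr⟩
    else if p i = CV.top then u' i else p i
  have hf1 : ∀ i ∈ R, f i = ⟨(u' i).stem, (u' i).pr ∪ (p i).pr⟩ := fun i hi => if_pos hi
  have hf2 : ∀ i, sp i → f i =
      ⟨(p i).stem ++ List.replicate (m - (p i).stem.length) (Finset.range (w i)), (p i).pr⟩ := by
    intro i hi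
    simp only [f, if_neg (hspc i hi).2.1, if_pos hi]
  have hf3 : ∀ i ∉ R, ¬ sp i → p i = CV.top → f i = u' i := by
    intro i hi hs hpi
    simp only [f, if_neg hi, if_neg hs, if_pos hpi]
  have hf4 : ∀ i ∉ R, ¬ sp i → p i ≠ CV.top → f i = p i := by
    intro i hi hs hpi
    simp only [f, if_neg hi, if_neg hs, if_neg hpi]
  have hfin : {i | f i ≠ CV.top}.Finite := by
    refine Set.Finite.subset (((Finset.finite_toSet R).union hspfin).union
      (u'.2.1.union p.2.1)) ?_
    intro i hi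
    have hi' : f i ≠ CV.top := hi
    by_cases hc1 : i ∈ R
    · exact Or.inl (Or.inl hc1)
    by_cases hc2 : sp i
    · exact Or.inl (Or.inr hc2)
    by_cases hc3 : p i = CV.top
    · rw [hf3 i hc1 hc2 hc3] at hi'
      exact Or.inr (Or.inl hi')
    · exact Or.inr (Or.inr hc3)
  have hlegit : ∀ i, rs i → Legit (f i) := by
    intro i hr
    by_cases hc1 : i ∈ R
    · rw [hf1 i hc1]
      refine ⟨?_, (u'.legit hr).2⟩
      exact (Finset.card_union_le _ _).trans (hlen i hc1 hr)
    by_cases hc2 : sp i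
    · exact absurd hr (hspc i hc2).1
    by_cases hc3 : p i = CV.top
    · rw [hf3 i hc1 hc2 hc3]
      exact u'.legit hr
    · rw [hf4 i hc1 hc2 hc3]
      exact p.legit hr
  obtain ⟨P, hP⟩ : ∃ P : Cond M rs, ∀ i, P i = f i := ⟨⟨f, hfin, hlegit⟩, fun _ => rfl⟩
  have hPu : le Γ Set.univ P u' := by
    intro i _
    by_cases hc1 : i ∈ R
    · exact ext_same_stem (by rw [hP, hf1 i hc1]) (by
        rw [hP, hf1 i hc1]
        exact Finset.subset_union_left)
    by_cases hc2 : sp i
    · exact ext_top (hspc i hc2).2.2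
    by_cases hc3 : p i = CV.top
    · exact ext_of_eq (by rw [hP, hf3 i hc1 hc2 hc3])
    · exact ext_top ((hdis i hc1).resolve_left hc3)
  have hPp : ∀ j, ext Γ j P p := by
    intro j
    induction j using (rk_wf Γ).induction with
    | _ j ih =>
    have hbel : le Γ (below Γ (Γ.rk j)) P p := fun i hi => ih i hi
    by_cases hc1 : j ∈ R
    swap
    · by_cases hc2 : sp j
      · refine ext_noreq (hG.cohen j (hspc j hc2).1) ?_ ?_
        · rw [hP, hf2 j hc2]
          exact List.prefix_append _ _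
        · rw [hP, hf2 j hc2]
      by_cases hc3 : p j = CV.top
      · exact ext_top hc3
      · exact ext_of_eq (by rw [hP, hf4 j hc1 hc2 hc3])
    have h1 : ext Γ j u' u := hu' j (Set.mem_univ _)
    rw [ext_iff] at h1 ⊢
    rw [hP, hf1 j hc1]
    refine ⟨by rw [hst j hc1]; exact h1.1, Finset.subset_union_right, ?_⟩
    intro k hk x c ε hx s hs1 hs2 t ht n hn ha
    rw [hst j hc1] at hs1
    by_cases hku : k ∈ (u j).pr
    · refine h1.2.2 k hku x c ε hx s hs1 hs2 t ?_ n hn ha
      exact le_trans' (low_below _) ht (le_mono (Set.subset_univ _) hPu)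
    · exfalso
      have hspcc : sp c := ⟨j, hc1, k, hk, hku, x, ε, hx⟩
      obtain ⟨hrs, hlt, hrc, hnrs, -, hsε⟩ := hG.part j k x c ε hx
      have hl : (p c).stem.length ≤ (p j).stem.length :=
        hp.len j (Set.mem_univ _) k hk x c ε hx
      rw [hst j hc1] at hl
      obtain ⟨-, e, he, hne⟩ := ha
      obtain ⟨e0, he0⟩ := hp.dec j (Set.mem_univ _) k hk x c ε hx
      have htp : le Γ (below Γ (Γ.rk j)) t p := le_trans' (low_below _) ht hbel
      have hee : e = e0 := he.unique (he0.mono (low_below _) htp)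
      have hw1 := hw c j hc1 k hk hku x ε hx
      have hw2 : w c = e0 := hw1.unique (he0.toUniv (low_below _) hsε)
      have hpre : (P c).stem <+: (t c).stem := ext_stem (ht c (show Γ.rk c < Γ.rk j by
        rw [hrc]; exact hlt))
      have hsm : s < m := lt_of_lt_of_le hs2 (hm j hc1)
      have hPc : (P c).stem = (p c).stem ++
          List.replicate (m - (p c).stem.length) (Finset.range (w c)) := by
        rw [hP, hf2 c hspcc]
      have h3 : (t c).stem.getD s ∅ = Finset.range (w c) := by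
        rw [getD_prefix hpre (by rw [hPc, List.length_append, List.length_replicate]; omega),
          hPc, getD_append_replicate _ (by omega) (by omega)]
      rw [h3, Finset.card_range, hw2] at hne
      exact hne hee.symm
  refine ⟨P, fun j _ => hPp j, hPu, fun i hi hui hreq => ?_⟩
  have hs : ¬ sp i := by
    rintro ⟨j, _, k, _, _, x, ε, hx⟩
    exact hreq j k x ε hx
  by_cases hc3 : p i = CV.top
  · rw [hP, hf3 i hi hs hc3, hui, hc3]
  · rw [hP, hf4 i hi hs hc3]

end Pool.Agent.H631.PC
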