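import Pool.Agent.H631.PC.Forced

/-!
# Bookkeeping: the parameters
-/

set_option autoImplicit false
set_option linter.unusedSectionVars false

namespace Pool.Agent.H631.PC

open Pool.Agent.Helper669.Forcing

/-- the coordinates: `lz k` Cohen reals of the lowest rank, `co β a` Cohen reals of rank `β`,
`sl β a` partial slaloms of rank `β` -/
inductive Ix (K Ω Λ : Type) : Type
  | lz (k : K) : Ix K Ω Λ
  | co (β : Ω) (a : Λ) : Ix K Ω Λ
  | sl (β : Ω) (a : Λ) : Ix K Ω Λ

/-- the restricted coordinates -/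
def Ix.rs {K Ω Λ : Type} : Ix K Ω Λ → Prop
  | .sl _ _ => True
  | _ => False

/-- the rank -/
def Ix.rk {K Ω Λ : Type} : Ix K Ω Λ → WithBot Ω
  | .lz _ => ⊥
  | .co β _ => β
  | .sl β _ => β

/-- the raw names for these coordinates; the promises are indexed by `T` -/
abbrev NmI (K Ω Λ T : Type) : Type := Nm T (Ix.rs (K := K) (Ω := Ω) (Λ := Λ))

/-- the data of a partial slalom: for every index two names -/
abbrev Dat (K Ω Λ T : Type) : Type := T → NmI K Ω Λ T × NmI K Ω Λ T

/-- the type of the coding function -/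
abbrev Code (K Ω Λ T : Type) : Type := Option T × (Ω × Dat K Ω Λ T) → Λ

variable {K Ω Λ T : Type} [LinearOrder T] [WellFoundedLT T] [LinearOrder Ω] [WellFoundedLT Ω]

open Classical in
/-- the restriction of the data: the second name is only kept below `k` -/
noncomputable def rst (D : Dat K Ω Λ T) (k : T) : Dat K Ω Λ T :=
  fun k' => ((D k').1, if k' < k then (D k').2 else fun _ _ => none)

/-- the coordinates of rank less than `β` -/
def blw (K Λ : Type) {Ω : Type} [LinearOrder Ω] (β : Ω) : Set (Ix K Ω Λ) :=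
  {i | Ix.rk i < (β : WithBot Ω)}

/-- the data are admissible for a partial slalom of rank `β` -/
structure Valid (β ξ : Ω) (D : Dat K Ω Λ T) : Prop where
  lt : ξ < β
  sx : ∀ k, Supp (blw K Λ ξ) (D k).1
  se : ∀ k, Supp (blw K Λ β) (D k).2

open Classical in
/-- the requirements -/
noncomputable def reqB (code : Code K Ω Λ T) :
    Ix K Ω Λ → T → Option (NmI K Ω Λ T × Ix K Ω Λ × NmI K Ω Λ T)
  | .lz _, _ => none
  | .co _ _, _ => none
  | .sl β a, k =>
      if h : ∃ D : Ω × Dat K Ω Λ T, code (none, D) = a ∧ Valid β D.1 D.2 then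
        some ((h.choose.2 k).1,
          Ix.co h.choose.1 (code (some k, (h.choose.1, rst h.choose.2 k))),
          (h.choose.2 k).2) else none

open Classical in
/-- the rank of the Cohen coordinates which are used -/
noncomputable def lvB (code : Code K Ω Λ T) : Ix K Ω Λ → WithBot Ω
  | .lz _ => ⊥
  | .co _ _ => ⊥
  | .sl _ a => if h : ∃ D : Ω × Dat K Ω Λ T, code (none, D) = a then (h.choose.1 : WithBot Ω)
      else ⊥

section

variable {code : Code K Ω Λ T}

theorem req_some {j : Ix K Ω Λ} {k : T} {x : NmI K Ω Λ T}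
    {c : Ix K Ω Λ} {ε : NmI K Ω Λ T} (h : reqB code j k = some (x, c, ε)) :
    ∃ β ξ D, j = .sl β (code (none, (ξ, D))) ∧ Valid β ξ D ∧ x = (D k).1 ∧
      c = .co ξ (code (some k, (ξ, rst D k))) ∧ ε = (D k).2 := by
  rcases j with l | ⟨β, a⟩ | ⟨β, a⟩
  · simp [reqB] at h
  · simp [reqB] at h
  · simp only [reqB] at h
    split_ifs at h with h1
    simp only [Option.some.injEq, Prod.mk.injEq] at h
    obtain ⟨h2, h3, h4⟩ := h
    exact ⟨β, h1.choose.1, h1.choose.2, congrArg (Ix.sl β) h1.choose_spec.1.symm,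
      h1.choose_spec.2, h2.symm, h3.symm, h4.symm⟩

theorem req_valid (hcode : Function.Injective code) {β ξ : Ω} {D : Dat K Ω Λ T}
    (h : Valid β ξ D) (k : T) :
    reqB code (.sl β (code (none, (ξ, D)))) k =
      some ((D k).1, Ix.co ξ (code (some k, (ξ, rst D k))), (D k).2) := by
  have h1 : ∃ D' : Ω × Dat K Ω Λ T, code (none, D') = code (none, (ξ, D)) ∧
      Valid β D'.1 D'.2 := ⟨(ξ, D), rfl, h⟩
  have h2 : h1.choose = (ξ, D) := by
    have := hcode h1.choose_spec.1
    exact (Prod.mk.inj this).2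
  simp only [reqB]
  rw [dif_pos h1, h2]

theorem lv_valid (hcode : Function.Injective code) (β ξ : Ω) (D : Dat K Ω Λ T) :
    lvB code (.sl β (code (none, (ξ, D)))) = ξ := by
  have h1 : ∃ D' : Ω × Dat K Ω Λ T, code (none, D') = code (none, (ξ, D)) := ⟨(ξ, D), rfl⟩
  have h2 : h1.choose = (ξ, D) := by
    have := hcode h1.choose_spec
    exact (Prod.mk.inj this).2
  simp only [lvB]
  rw [dif_pos h1, h2]

/-- the parameters -/
noncomputable def GB (code : Code K Ω Λ T) :
    Par T (WithBot Ω) (Ix.rs (K := K) (Ω := Ω) (Λ := Λ)) :=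
  ⟨Ix.rk, reqB code⟩

theorem good (hcode : Function.Injective code) : Good (GB code) (lvB code) where
  part := by
    intro j k x c ε h
    obtain ⟨β, ξ, D, rfl, hv, rfl, rfl, rfl⟩ := req_some h
    rw [lv_valid hcode]
    exact ⟨trivial, WithBot.coe_lt_coe.2 hv.lt, rfl, fun h => h, hv.sx k, hv.se k⟩
  cohen := by
    intro c hc k
    rcases c with l | ⟨β, a⟩ | ⟨β, a⟩
    · rfl
    · rfl
    · exact absurd trivial hc
  inj := by
    intro j j' k k' x x' c ε ε' h h'
    obtain ⟨β, ξ, D, -, -, -, rfl, -⟩ := req_some h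
    obtain ⟨β', ξ', D', -, -, -, h2, -⟩ := req_some h'
    simp only [Ix.co.injEq] at h2
    exact Option.some_injective _ (Prod.mk.inj (hcode h2.2)).1
  coh := by
    intro j j'
    refine Set.Subsingleton.finite ?_
    have key : ∀ k1 k2 : T,
        (∃ x c ε k' x' ε', reqB code j k1 = some (x, c, ε) ∧
          reqB code j' k' = some (x', c, ε') ∧ ε ≠ ε') →
        (∃ x c ε k' x' ε', reqB code j k2 = some (x, c, ε) ∧
          reqB code j' k' = some (x', c, ε') ∧ ε ≠ ε') → ¬ k1 < k2 := by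
      rintro k1 k2 ⟨x1, c1, ε1, k1', x1', ε1', h1, h1', hne⟩
        ⟨x2, c2, ε2, k2', x2', ε2', h2, h2', -⟩ hlt
      obtain ⟨β, ξ, D, hj, hv, rfl, rfl, rfl⟩ := req_some h1
      obtain ⟨β', ξ', D', hj', hv', rfl, e1, rfl⟩ := req_some h1'
      obtain ⟨β2, ξ2, D2, hj2, hv2, rfl, rfl, rfl⟩ := req_some h2
      obtain ⟨β2', ξ2', D2', hj2', hv2', rfl, e2, rfl⟩ := req_some h2'
      rw [hj] at hj2
      rw [hj'] at hj2'
      simp only [Ix.sl.injEq] at hj2 hj2'
      have h3 := (Prod.mk.inj (hcode hj2.2)).2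
      have h4 := (Prod.mk.inj (hcode hj2'.2)).2
      simp only [Prod.mk.injEq] at h3 h4
      obtain ⟨rfl, rfl⟩ := h3
      obtain ⟨rfl, rfl⟩ := h4
      simp only [Ix.co.injEq] at e1 e2
      have h5 := (Prod.mk.inj (hcode e1.2))
      have h6 := (Prod.mk.inj (hcode e2.2))
      have h7 : k1 = k1' := Option.some_injective _ h5.1
      subst h7
      have h8 := congrFun (Prod.mk.inj h6.2).2 k1
      have h9 := congrArg Prod.snd h8
      have h10 : k2 = k2' := Option.some_injective _ h6.1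
      subst h10
      simp only [rst, if_pos hlt] at h9
      exact hne h9
    intro k1 h1 k2 h2
    rcases lt_trichotomy k1 k2 with h | h | h
    · exact absurd h (key k1 k2 h1 h2)
    · exact h
    · exact absurd h (key k2 k1 h2 h1)

end

/-! ### Bounds -/

theorem bddNat [Infinite T] (hb : ∀ f : T → Ω, ∃ β, ∀ k, f k < β) (g : ℕ → Ω) :
    ∃ β, ∀ n, g n < β := by
  let ι : ℕ ↪ T := Infinite.natEmbedding T
  obtain ⟨β, hβ⟩ := hb fun k => g (Function.invFun ι k)
  refine ⟨β, fun n => ?_⟩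
  have := hβ (ι n)
  rwa [Function.leftInverse_invFun ι.injective n] at this

/-- a bound of the rank in `Ω` -/
def rkO (ω : Ω) : Ix K Ω Λ → Ω
  | .lz _ => ω
  | .co β _ => β
  | .sl β _ => β

theorem rk_le (ω : Ω) (i : Ix K Ω Λ) : Ix.rk i ≤ ((rkO ω i : Ω) : WithBot Ω) := by
  rcases i with l | ⟨β, a⟩ | ⟨β, a⟩
  · exact bot_le
  · exact le_rfl
  · exact le_rfl

theorem supp_bdd [Infinite T] [Nonempty Ω] (hb : ∀ f : T → Ω, ∃ β, ∀ k, f k < β)
    (x : NmI K Ω Λ T) : ∃ β : Ω, Supp (blw K Λ β) x := by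
  classical
  obtain ⟨ω⟩ := ‹Nonempty Ω›
  have h1 : ∀ nm : ℕ × ℕ, ∃ M : Ω, ∀ u v, x nm.1 nm.2 = some (u, v) → ∀ i, u i ≠ CV.top →
      rkO ω i ≤ M := by
    rintro ⟨n, m⟩
    rcases hx : x n m with _ | ⟨u, v⟩
    · exact ⟨ω, fun u v h => by simp at h⟩
    · obtain ⟨M, hM⟩ := (u.supp.image (rkO ω)).exists_le
      refine ⟨M, fun u' v' h i hi => ?_⟩
      simp only [Option.some.injEq, Prod.mk.injEq] at h
      obtain ⟨rfl, rfl⟩ := h
      exact hM _ (Finset.mem_image_of_mem _ (Cond.mem_supp.2 hi))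
  choose B hB using h1
  obtain ⟨β, hβ⟩ := bddNat hb fun n => B (Nat.unpair n)
  refine ⟨β, fun n m u v h i hi => ?_⟩
  by_contra hcon
  apply hi
  have h2 := hB (n, m) u v h i hcon
  have h3 := hβ (Nat.pair n m)
  rw [Nat.unpair_pair] at h3
  exact lt_of_le_of_lt (rk_le ω i) (WithBot.coe_lt_coe.2 (lt_of_le_of_lt h2 h3))

theorem blw_mono {β β' : Ω} (h : β ≤ β') : blw K Λ β ⊆ blw K Λ β' :=
  fun _ hi => lt_of_lt_of_le hi (WithBot.coe_le_coe.2 h)

theorem exists_data [Infinite T] [Nonempty Ω] (hb : ∀ f : T → Ω, ∃ β, ∀ k, f k < β)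
    (code : Code K Ω Λ T) (x : T → NmI K Ω Λ T) (E : T → Ω × Λ → NmI K Ω Λ T) :
    ∃ (β ξ : Ω) (D : Dat K Ω Λ T), Valid β ξ D ∧ ∀ k, (D k).1 = x k ∧
      (D k).2 = E k (ξ, code (some k, (ξ, rst D k))) := by
  classical
  choose b hbx using fun k => supp_bdd hb (x k)
  obtain ⟨ξ, hξ⟩ := hb b
  let dd : (T → NmI K Ω Λ T) → Dat K Ω Λ T := fun ε k => (x k, ε k)
  let step : (k : T) → (T → NmI K Ω Λ T) → NmI K Ω Λ T := fun k ε =>
    E k (ξ, code (some k, (ξ, fun k' => (x k', ε k'))))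
  let ε : T → NmI K Ω Λ T := (wellFounded_lt (α := T)).fix fun k rec =>
    step k fun k' => if h : k' < k then rec k' h else fun _ _ => none
  have hε : ∀ k, ε k = step k fun k' => if k' < k then ε k' else fun _ _ => none := by
    intro k
    have h2 : ε k = step k fun k' => if h : k' < k then ε k' else fun _ _ => none := by
      show (wellFounded_lt (α := T)).fix _ k = _
      rw [WellFounded.fix_eq]
    rw [h2]
    congr 1
  choose s hs using fun k => supp_bdd hb (ε k)
  obtain ⟨β, hβ⟩ := hb fun k => max ξ (s k)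
  obtain ⟨k0⟩ : Nonempty T := inferInstance
  refine ⟨β, ξ, fun k => (x k, ε k), ⟨?_, ?_, ?_⟩, fun k => ⟨rfl, ?_⟩⟩
  · exact lt_of_le_of_lt (le_max_left _ _) (hβ k0)
  · intro k
    exact (hbx k).mono (blw_mono (hξ k).le)
  · intro k
    exact (hs k).mono (blw_mono ((le_max_right _ _).trans (hβ k).le))
  · show ε k = _
    rw [hε k]
    rfl

/-- The forcing theorem, from the parts. -/
theorem forcing_of_card [Uncountable K] [Infinite T] [Nonempty Ω]
    (hb : ∀ f : T → Ω, ∃ β, ∀ k, f k < β) (code : Code K Ω Λ T)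
    (hcode : Function.Injective code) :
    CCC (GB code) ∧ ∀ p : PP (GB code), p ∈ InfEqualN (PP (GB code)) K ∧
      p ∈ PartlyCapturedN (PP (GB code)) T (Ω × Λ) := by
  have hG : Good (GB code) (lvB code) := good hcode
  refine ⟨ccc hG, fun p => ⟨?_, ?_⟩⟩
  · refine infEqual hG (fun k => Ix.lz k) (fun k k' h => Ix.lz.inj h) (fun _ h => h) ?_ p
    intro l j k x ε h
    obtain ⟨β, ξ, D, -, -, -, h1, -⟩ := req_some h
    exact absurd h1 (by simp)
  · refine partlyCaptured hG (fun z : Ω × Λ => Ix.co z.1 z.2) ?_ p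
    intro x E
    obtain ⟨β, ξ, D, hv, hD⟩ := exists_data hb code x E
    refine ⟨.sl β (code (none, (ξ, D))), fun k => ⟨k, (ξ, code (some k, (ξ, rst D k))), ?_⟩⟩
    show reqB code (.sl β (code (none, (ξ, D)))) k = _
    rw [req_valid hcode hv k, (hD k).1, (hD k).2]

end Pool.Agent.H631.PC
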