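import Pool.Agent.H631.PC.Book

/-!
# The cardinalities, and the forcing theorem
-/

set_option autoImplicit false
set_option linter.unusedSectionVars false

namespace Pool.Agent.H631.PC

open Classical Cardinal
open scoped Cardinal
open Pool.Agent.Helper669.Forcing

/-- the index set of the coordinates as a sum -/
def ixEmb {K Ω Λ : Type} : Ix K Ω Λ → K ⊕ ((Ω × Λ) ⊕ (Ω × Λ))
  | .lz l => Sum.inl l
  | .co β a => Sum.inr (Sum.inl (β, a))
  | .sl β a => Sum.inr (Sum.inr (β, a))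

theorem ixEmb_inj {K Ω Λ : Type} : Function.Injective (ixEmb (K := K) (Ω := Ω) (Λ := Λ)) := by
  intro x y h
  cases x <;> cases y <;> simp [ixEmb] at h <;> simp [h]

theorem mk_Ix {K Ω Λ : Type} (hΛ : ℵ₀ ≤ #Λ) (hK : #K ≤ #Λ) (hΩ : #Ω ≤ #Λ) :
    #(Ix K Ω Λ) ≤ #Λ := by
  refine (Cardinal.mk_le_of_injective ixEmb_inj).trans ?_
  simp only [Cardinal.mk_sum, Cardinal.mk_prod, Cardinal.lift_id]
  have h1 : #Ω * #Λ ≤ #Λ := (mul_le_mul' hΩ le_rfl).trans (Cardinal.mul_eq_self hΛ).le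
  have h2 : ∀ a b : Cardinal.{0}, a ≤ #Λ → b ≤ #Λ → a + b ≤ #Λ := fun a b ha hb =>
    (add_le_add ha hb).trans (Cardinal.add_eq_self hΛ).le
  exact h2 _ _ hK (h2 _ _ h1 h1)

theorem mk_CV {M : Type} {c : Cardinal.{0}} (hc : ℵ₀ ≤ c) (hM : #M ≤ c) : #(CV M) ≤ c := by
  let f : CV M → List (Finset ℕ) × Finset M := fun v => (v.stem, v.pr)
  have hf : Function.Injective f := by
    rintro ⟨a, b⟩ ⟨a', b'⟩ h
    simp only [f, Prod.mk.injEq] at h
    rw [h.1, h.2]
  refine (Cardinal.mk_le_of_injective hf).trans ?_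
  rw [Cardinal.mk_prod, Cardinal.lift_id, Cardinal.lift_id]
  have h1 : #(Finset M) ≤ c := by
    rcases finite_or_infinite M with h | h
    · exact (Cardinal.lt_aleph0_of_finite _).le.trans hc
    · rw [Cardinal.mk_finset_of_infinite]
      exact hM
  calc #(List (Finset ℕ)) * #(Finset M) ≤ ℵ₀ * c := mul_le_mul' Cardinal.mk_le_aleph0 h1
    _ = c := Cardinal.aleph0_mul_eq hc

theorem mk_Cond {M I : Type} {rs : I → Prop} {c : Cardinal.{0}} (hc : ℵ₀ ≤ c) (hM : #M ≤ c)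
    (hI : #I ≤ c) : #(Cond M rs) ≤ c := by
  let f : Cond M rs → Finset (I × CV M) := fun u => u.supp.image fun i => (i, u i)
  have hf : Function.Injective f := by
    intro u w h
    have key : ∀ u w : Cond M rs, f u = f w → ∀ i : I, u i ≠ CV.top → w i = u i := by
      intro u w h i hi
      have h2 : (i, u i) ∈ f u := Finset.mem_image.2 ⟨i, Cond.mem_supp.2 hi, rfl⟩
      rw [h] at h2
      obtain ⟨i', _, h3⟩ := Finset.mem_image.1 h2
      rw [Prod.mk.injEq] at h3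
      obtain ⟨rfl, h4⟩ := h3
      exact h4
    apply Cond.ext'
    intro i
    by_cases h2 : u i = CV.top
    · by_cases h3 : w i = CV.top
      · rw [h2, h3]
      · exact key w u h.symm i h3
    · exact (key u w h i h2).symm
  refine (Cardinal.mk_le_of_injective hf).trans ?_
  have h2 : #(I × CV M) ≤ c := by
    rw [Cardinal.mk_prod, Cardinal.lift_id, Cardinal.lift_id]
    calc #I * #(CV M) ≤ c * c := mul_le_mul' hI (mk_CV hc hM)
      _ = c := Cardinal.mul_eq_self hc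
  rcases finite_or_infinite (I × CV M) with h3 | h3
  · exact (Cardinal.lt_aleph0_of_finite _).le.trans hc
  · rw [Cardinal.mk_finset_of_infinite]
    exact h2

theorem mk_Nm {M I : Type} {rs : I → Prop} {c : Cardinal.{0}} (hc : ℵ₀ ≤ c) (hc2 : c ^ ℵ₀ = c)
    (hM : #M ≤ c) (hI : #I ≤ c) : #(Nm M rs) ≤ c := by
  have h1 : #(Option (Cond M rs × ℕ)) ≤ c := by
    rw [Cardinal.mk_option, Cardinal.mk_prod, Cardinal.lift_id, Cardinal.lift_id]
    have h2 : #(Cond M rs) * #ℕ ≤ c :=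
      (mul_le_mul' (mk_Cond hc hM hI) Cardinal.mk_le_aleph0).trans (Cardinal.mul_aleph0_eq hc).le
    calc #(Cond M rs) * #ℕ + 1 ≤ c + c := add_le_add h2 (Cardinal.one_le_aleph0.trans hc)
      _ = c := Cardinal.add_eq_self hc
  have h2 : #(ℕ → ℕ → Option (Cond M rs × ℕ)) = #(Option (Cond M rs × ℕ)) ^ ℵ₀ := by
    rw [← Cardinal.mk_congr (Equiv.curry ℕ ℕ (Option (Cond M rs × ℕ)))]
    simp
  show #(ℕ → ℕ → Option (Cond M rs × ℕ)) ≤ c
  rw [h2]
  conv_rhs => rw [← hc2]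
  exact Cardinal.power_le_power_right h1

/-- an unbounded map into a successor cardinal -/
theorem bdd_succ {T : Type} [Infinite T] (f : T → (Order.succ #T).ord.ToType) :
    ∃ β, ∀ k, f k < β := by
  by_contra hcon
  push Not at hcon
  have h1 : (Set.univ : Set (Order.succ #T).ord.ToType) = ⋃ k, Set.Iic (f k) := by
    ext β
    simp only [Set.mem_univ, Set.mem_iUnion, Set.mem_Iic, true_iff]
    exact hcon β
  have hT : ℵ₀ ≤ #T := Cardinal.aleph0_le_mk T
  have h2 : ∀ k, #(Set.Iic (f k)) ≤ #T := by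
    intro k
    have h30 : #(Set.Iio (f k)) < Order.succ #T := Cardinal.mk_Iio_toType_ord_lt (f k)
    have h3 : #(Set.Iio (f k)) ≤ #T := Order.lt_succ_iff.1 h30
    have h4 : Set.Iic (f k) = insert (f k) (Set.Iio (f k)) := by
      ext β
      simp only [Set.mem_Iic, Set.mem_insert_iff, Set.mem_Iio]
      exact le_iff_eq_or_lt
    rw [h4]
    refine (Cardinal.mk_insert_le).trans ?_
    exact (add_le_add h3 (Cardinal.one_le_aleph0.trans hT)).trans
      (Cardinal.add_eq_self hT).le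
  have h3 : Order.succ #T ≤ #T := by
    rw [← Cardinal.mk_ord_toType (Order.succ #T), ← Cardinal.mk_univ, h1]
    refine (Cardinal.mk_iUnion_le _).trans ?_
    calc #T * _ ≤ #T * #T := mul_le_mul' le_rfl (ciSup_le' h2)
      _ = #T := Cardinal.mul_eq_self hT
  exact absurd h3 (not_le.2 (Order.lt_succ _))

/-- **The forcing theorem.** For every infinite set `T` there is a ccc notion of forcing which
forces `InfEqual K` for a set `K` of size `ℵ₁` and `PartlyCaptured T C` for some set `C`. -/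
theorem exists_forcing (T : Type) [Infinite T] :
    ∃ (K C P : Type) (_ : LinearOrder K) (_ : Preorder P),
      (∀ k : K, (Set.Iio k).Countable) ∧ Nonempty P ∧
      (∀ A : Set P, (∀ p ∈ A, ∀ q ∈ A, p ≠ q → ¬ ∃ r, r ≤ p ∧ r ≤ q) → A.Countable) ∧
      ∀ p : P, p ∈ InfEqualN P K ∧ p ∈ PartlyCapturedN P T C := by
  let K : Type := (Cardinal.aleph 1 : Cardinal.{0}).ord.ToType
  let Ω : Type := (Order.succ #T).ord.ToType
  let Λ : Type := Set (Ω ⊕ K)
  have hT : ℵ₀ ≤ #T := Cardinal.aleph0_le_mk T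
  have hK : #K = Cardinal.aleph 1 := Cardinal.mk_ord_toType _
  have hΩ : #Ω = Order.succ #T := Cardinal.mk_ord_toType _
  have hΛ : #Λ = 2 ^ #(Ω ⊕ K) := Cardinal.mk_set
  have hTΩ : #T < #Ω := by rw [hΩ]; exact Order.lt_succ _
  have hΩS : #Ω ≤ #(Ω ⊕ K) := by
    rw [Cardinal.mk_sum, Cardinal.lift_id, Cardinal.lift_id]
    exact le_self_add
  have hKS : #K ≤ #(Ω ⊕ K) := by
    rw [Cardinal.mk_sum, Cardinal.lift_id, Cardinal.lift_id]
    exact le_add_self
  have hS : ℵ₀ ≤ #(Ω ⊕ K) := hT.trans (hTΩ.le.trans hΩS)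
  have hSΛ : #(Ω ⊕ K) < #Λ := by
    rw [hΛ]; exact Cardinal.cantor _
  have hc : ℵ₀ ≤ #Λ := hS.trans hSΛ.le
  have hpow : ∀ a : Cardinal.{0}, a ≠ 0 → a ≤ #(Ω ⊕ K) → #Λ ^ a = #Λ := by
    intro a ha0 ha
    rw [hΛ, ← Cardinal.power_mul, Cardinal.mul_eq_left hS ha ha0]
  have hc2 : #Λ ^ ℵ₀ = #Λ := hpow _ Cardinal.aleph0_ne_zero hS
  have hc3 : #Λ ^ #T = #Λ := hpow _ (Cardinal.aleph0_pos.trans_le hT).ne' (hTΩ.le.trans hΩS)
  have hIio : ∀ k : K, (Set.Iio k).Countable := fun k => by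
    rw [Cardinal.countable_iff_lt_aleph_one]
    exact Cardinal.mk_Iio_toType_ord_lt k
  have hunc : Uncountable K := by
    rw [← Cardinal.aleph0_lt_mk_iff, hK]
    exact Cardinal.aleph0_lt_aleph_one
  have hTΛ : #T ≤ #Λ := hTΩ.le.trans (hΩS.trans hSΛ.le)
  have hI : #(Ix K Ω Λ) ≤ #Λ := mk_Ix hc (hKS.trans hSΛ.le) (hΩS.trans hSΛ.le)
  have hN : ∀ (_ : LinearOrder T) (_ : WellFoundedLT T), #(NmI K Ω Λ T) ≤ #Λ := fun _ _ =>
    mk_Nm hc hc2 hTΛ hI
  obtain ⟨iT, iTw⟩ := exists_wellOrder T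
  have hne : Nonempty Ω := by
    rw [← Cardinal.mk_ne_zero_iff]
    exact ((Cardinal.zero_le _).trans_lt hTΩ).ne'
  have hcode : ∃ code : Code K Ω Λ T, Function.Injective code := by
    have h1 : #(NmI K Ω Λ T × NmI K Ω Λ T) ≤ #Λ := by
      rw [Cardinal.mk_prod, Cardinal.lift_id]
      exact (mul_le_mul' (hN iT iTw) (hN iT iTw)).trans (Cardinal.mul_eq_self hc).le
    have h2 : #(Dat K Ω Λ T) ≤ #Λ := by
      show #(T → NmI K Ω Λ T × NmI K Ω Λ T) ≤ #Λ
      rw [← Cardinal.power_def]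
      conv_rhs => rw [← hc3]
      exact Cardinal.power_le_power_right h1
    have h3 : #(Option T × (Ω × Dat K Ω Λ T)) ≤ #Λ := by
      simp only [Cardinal.mk_prod, Cardinal.lift_id, Cardinal.mk_option]
      have h4 : #T + 1 ≤ #Λ := (add_le_add hTΛ (Cardinal.one_le_aleph0.trans hc)).trans
        (Cardinal.add_eq_self hc).le
      exact (mul_le_mul' h4 ((mul_le_mul' (hΩS.trans hSΛ.le) h2).trans
        (Cardinal.mul_eq_self hc).le)).trans (Cardinal.mul_eq_self hc).le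
    obtain ⟨g⟩ := h3
    exact ⟨g, g.injective⟩
  obtain ⟨code, hcode⟩ := hcode
  obtain ⟨h1, h2⟩ := forcing_of_card (K := K) (Ω := Ω) (Λ := Λ) (T := T) bdd_succ code hcode
  refine ⟨K, Ω × Λ, PP (GB code), inferInstance, inferInstance, hIio,
    ⟨(Cond.one : Cond T (Ix.rs (K := K) (Ω := Ω) (Λ := Λ)))⟩, ?_, h2⟩
  intro A hA
  by_contra hcon
  obtain ⟨p, hp, q, hq, hne, r, h1, h2⟩ := h1 A hcon
  exact hA p hp q hq hne ⟨r, h1, h2⟩

/-- For every sequence of infinite sets with strictly increasing sizes there is a ccc notion of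
forcing which forces `PhiFor K C T` for a set `K` of size `ℵ₁` and some set `C`. -/
theorem exists_forcing_seq (T : ℕ → Type) [Infinite (T 0)] (hT : ∀ n, #(T n) < #(T (n + 1))) :
    ∃ (K C P : Type) (_ : LinearOrder K) (_ : Preorder P),
      (∀ k : K, (Set.Iio k).Countable) ∧ Nonempty P ∧
      (∀ A : Set P, (∀ p ∈ A, ∀ q ∈ A, p ≠ q → ¬ ∃ r, r ≤ p ∧ r ≤ q) → A.Countable) ∧
      ∀ p : P, p ∈ PhiHolds P K C T := by
  have hinf : ∀ n, Infinite (T n) := by
    intro n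
    rw [← Cardinal.aleph0_le_mk_iff]
    induction n with
    | zero => exact Cardinal.aleph0_le_mk _
    | succ n ih => exact ih.trans (hT n).le
  have : Infinite (Σ n, T n) :=
    Infinite.of_injective (fun x : T 0 => (⟨0, x⟩ : Σ n, T n)) fun x y h => by
      simpa using h
  obtain ⟨K, C, P, _, _, hK, hP, hccc, h⟩ := exists_forcing (Σ n, T n)
  exact ⟨K, C, P, _, _, hK, hP, hccc, fun p => ⟨(h p).1, (h p).2, fun n =>
    haveI := hinf n
    notOnto hccc (hT n) p⟩⟩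

end Pool.Agent.H631.PC
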