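import Pool.Agent.H631.PC.Prep

/-! # The stem at a coordinate can be made long -/

set_option autoImplicit false
set_option linter.unusedSectionVars false

namespace Pool.Agent.H631.PC

open Classical

variable {M I W : Type} {rs : I → Prop} [LinearOrder W] [WellFoundedLT W]

theorem ext_long (Γ : Par M W rs) (j : I) (N : ℕ) (p : Cond M rs) :
    ∃ p', le Γ Set.univ p' p ∧ N ≤ (p' j).stem.length ∧ (p' j).pr = (p j).pr ∧
      ∀ i, ¬ Γ.rk i < Γ.rk j → i ≠ j → p' i = p i := by
  set S : Set I := below Γ (Γ.rk j) with hSdef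
  have hS : Low Γ S := low_below _
  have hjS : j ∉ S := fun h => lt_irrefl _ h
  obtain ⟨t, htp, htd⟩ := Val.decideF (Γ := Γ) hS ((p j).pr ×ˢ Finset.range N)
    (fun z : M × ℕ => xOf (Γ.req j z.1)) (fun z => z.2) p
  have hdec : ∀ k i, ∃ v, k ∈ (p j).pr → i < N → Val (le Γ S) t (xOf (Γ.req j k)) i v := by
    intro k i
    by_cases h : k ∈ (p j).pr ∧ i < N
    · obtain ⟨v, hv⟩ := htd (k, i) (Finset.mem_product.2 ⟨h.1, Finset.mem_range.2 h.2⟩)
      exact ⟨v, fun _ _ => hv⟩
    · exact ⟨0, fun h1 h2 => absurd ⟨h1, h2⟩ h⟩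
  choose v hv using hdec
  set len := (p j).stem.length with hlen
  let g : ℕ → Finset ℕ := fun i => (p j).pr.image fun k => v k (len + i)
  let st : List (Finset ℕ) := (p j).stem ++ (List.range (N - len)).map g
  have hstlen : st.length = len + (N - len) := by
    simp only [st, List.length_append, List.length_map, List.length_range, hlen]
  have hst1 : ∀ i < len, st.getD i ∅ = (p j).stem.getD i ∅ := by
    intro i hi
    exact List.getD_append _ _ _ _ hi
  have hst2 : ∀ i, len ≤ i → i < st.length → st.getD i ∅ = g (i - len) := by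
    intro i hi hi'
    exact getD_append_map _ hi (by omega)
  have hleg : rs j → Legit (⟨st, (p j).pr⟩ : CV M) := by
    intro hj
    have hl := p.legit hj
    refine ⟨?_, ?_⟩
    · show (p j).pr.card ≤ st.length
      have := hl.1
      omega
    · intro i hi
      show (st.getD i ∅).card ≤ i
      have hi' : i < st.length := hi
      by_cases h : i < len
      · rw [hst1 i h]
        exact hl.2 i h
      · rw [hst2 i (not_lt.1 h) hi']
        have h1 : (g (i - len)).card ≤ (p j).pr.card := Finset.card_image_le
        have h2 := hl.1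
        omega
  let p1 : Cond M rs := mix S t p
  let p' : Cond M rs := upd p1 j ⟨st, (p j).pr⟩ hleg
  have hp'j : p' j = ⟨st, (p j).pr⟩ := upd_same p1 j _ hleg
  have hp'S : ∀ i ∈ S, p' i = t i := by
    intro i hi
    have hne : i ≠ j := fun h => hjS (h ▸ hi)
    rw [upd_of_ne p1 _ hleg hne]
    exact mix_mem t p hi
  have hp'o : ∀ i, i ∉ S → i ≠ j → p' i = p i := by
    intro i hi hne
    rw [upd_of_ne p1 _ hleg hne]
    exact mix_notMem t p hi
  refine ⟨p', ?_, ?_, ?_, hp'o⟩
  · intro i _
    by_cases hi : i ∈ S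
    · exact ext_congr i (fun l hl => (hp'S l (hS i hi l hl)).symm) (hp'S i hi).symm rfl (htp i hi)
    · by_cases hij : i = j
      · subst hij
        rw [ext_iff, hp'j]
        refine ⟨List.prefix_append _ _, Finset.Subset.refl _, ?_⟩
        intro k hk x c ε hx m hm hm' t' ht' n hn _
        have htt : le Γ S t' t := le_trans' hS ht'
          (le_congr hS (fun l hl => (hp'S l hl).symm) (fun _ _ => rfl) (le_refl' S t))
        have hm1 : m < st.length := hm'
        have hm2 : len ≤ m := hm
        have hmN : m < N := by omega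
        have h1 : Val (le Γ S) t' x m (v k m) := by
          have := (hv k m hk hmN).mono hS htt
          rwa [hx] at this
        have h2 : n = v k m := Val.unique hn h1
        show n ∈ st.getD m ∅
        rw [hst2 m hm2 hm1, h2]
        have h3 : len + (m - len) = m := by omega
        refine Finset.mem_image.2 ⟨k, hk, ?_⟩
        simp only [h3]
      · exact ext_of_eq (hp'o i hi hij)
  · rw [hp'j]
    show N ≤ st.length
    omega
  · rw [hp'j]

/-- all the stems at the coordinates in a finite set can be made long -/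
theorem long_all (Γ : Par M W rs) (E : ℕ) (J : Finset I) : ∀ p : Cond M rs,
    ∃ p', le Γ Set.univ p' p ∧ (∀ j ∈ J, (p' j).pr.card + E ≤ (p' j).stem.length) ∧
      ∀ i, (∀ j ∈ J, ¬ Γ.rk i < Γ.rk j) → i ∉ J → p' i = p i := by
  induction J using Finset.induction_on_max_value Γ.rk with
  | empty => exact fun p => ⟨p, le_refl' _ _, fun j hj => absurd hj (Finset.notMem_empty j),
      fun _ _ _ => rfl⟩
  | insert a s has hmax ih =>
    intro p
    obtain ⟨p1, h1, h2, h3, h4⟩ := ext_long Γ a ((p a).pr.card + E) p
    obtain ⟨p2, h5, h6, h7⟩ := ih p1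
    refine ⟨p2, le_trans' low_univ h5 h1, fun j hj => ?_, fun i hi hi' => ?_⟩
    · rcases Finset.mem_insert.1 hj with rfl | hj
      · rw [h7 j (fun x hx => not_lt.2 (hmax x hx)) has, h3]
        exact h2
      · exact h6 j hj
    · rw [h7 i (fun j hj => hi j (Finset.mem_insert_of_mem hj))
        (fun h => hi' (Finset.mem_insert_of_mem h)),
        h4 i (hi a (Finset.mem_insert_self _ _)) (fun h => hi' (h ▸ Finset.mem_insert_self _ _))]

end Pool.Agent.H631.PC
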