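import Pool.Agent.H631.PC.Amalg
import Pool.Agent.H631.PC.Ext
import Pool.Graph.R_seed8.Helper126.Fact

/-!
# Uncountable families of prepared conditions, and the countable chain condition
-/

set_option autoImplicit false
set_option linter.unusedSectionVars false

namespace Pool.Agent.H631.PC

open Classical

variable {M I W : Type} {rs : I → Prop} [LinearOrder W] [WellFoundedLT W] {Γ : Par M W rs}

theorem uncountable_fiber {α β : Type} [Countable β] {A : Set α} (hA : ¬ A.Countable)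
    (g : α → β) : ∃ b, ¬ {a ∈ A | g a = b}.Countable := by
  by_contra hcon
  push Not at hcon
  apply hA
  refine (Set.countable_iUnion hcon).mono fun a ha => ?_
  exact Set.mem_iUnion.2 ⟨g a, ha, rfl⟩

theorem fan {lv : I → W} (hG : Good Γ lv) {α : Type} {A : Set α} (hA : ¬ A.Countable)
    (p : α → Cond M rs) (hp : ∀ a ∈ A, Prepared Γ lv Set.univ (p a)) :
    ∃ (A' : Set α) (u : Cond M rs), A' ⊆ A ∧ ¬ A'.Countable ∧
      (∀ a ∈ A', le Γ Set.univ (p a) u) ∧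
      ∀ u', le Γ Set.univ u' u → ∃ (B : Set α) (F : Finset I), B.Finite ∧ ∀ a ∈ A', a ∉ B →
        ∃ P, le Γ Set.univ P (p a) ∧ le Γ Set.univ P u' ∧
          ∀ i ∉ F, (∀ j k x ε, Γ.req j k ≠ some (x, i, ε)) → P i = p a i := by
  obtain ⟨A1, R1, hA1A, hA1, hR1, hd1⟩ := Helper126.delta_system
    (fun a => ((p a).supp).disjSum ((p a).supp.biUnion fun j => (p a j).pr.image fun k => (j, k)))
    A hA
  let R : Finset I := R1.toLeft
  have hR : ∀ i, i ∈ R ↔ Sum.inl i ∈ R1 := fun i => Finset.mem_toLeft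
  obtain ⟨st, hA2⟩ := uncountable_fiber hA1 (fun a => fun j : R => (p a j.1).stem)
  obtain ⟨A2, hA2def⟩ : ∃ A2 : Set α, A2 = {a ∈ A1 | (fun j : R => (p a j.1).stem) = st} :=
    ⟨_, rfl⟩
  rw [← hA2def] at hA2
  have hA21 : ∀ a ∈ A2, a ∈ A1 := fun a ha => by
    rw [hA2def] at ha
    exact ha.1
  have hstem : ∀ a ∈ A2, ∀ b ∈ A2, ∀ j ∈ R, (p a j).stem = (p b j).stem := by
    intro a ha b hb j hj
    rw [hA2def] at ha hb
    exact (congrFun ha.2 ⟨j, hj⟩).trans (congrFun hb.2 ⟨j, hj⟩).symm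
  have hdsupp : ∀ a ∈ A2, ∀ b ∈ A2, ∀ i, i ∉ R → p a i ≠ CV.top → p b i ≠ CV.top → a = b := by
    intro a ha b hb i hi h1 h2
    by_contra hab
    exact hi ((hR i).2 (hd1 a (hA21 a ha) b (hA21 b hb) hab (Sum.inl i)
      (Finset.inl_mem_disjSum.2 (Cond.mem_supp.2 h1))
      (Finset.inl_mem_disjSum.2 (Cond.mem_supp.2 h2))))
  have hpr : ∀ a j k, k ∈ (p a j).pr → Sum.inr (j, k) ∈
      ((p a).supp).disjSum ((p a).supp.biUnion fun j => (p a j).pr.image fun k => (j, k)) := by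
    intro a j k hk
    exact Finset.inr_mem_disjSum.2 (Finset.mem_biUnion.2 ⟨j, Cond.top_of_pr hk,
      Finset.mem_image.2 ⟨k, hk, rfl⟩⟩)
  have hdpr : ∀ a ∈ A2, ∀ b ∈ A2, ∀ j k, Sum.inr (j, k) ∉ R1 → k ∈ (p a j).pr →
      k ∈ (p b j).pr → a = b := by
    intro a ha b hb j k h h1 h2
    by_contra hab
    exact h (hd1 a (hA21 a ha) b (hA21 b hb) hab (Sum.inr (j, k)) (hpr a j k h1) (hpr b j k h2))
  have hRpr : ∀ a ∈ A2, ∀ j k, Sum.inr (j, k) ∈ R1 → k ∈ (p a j).pr := by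
    intro a ha j k h1
    obtain ⟨j', _, h2⟩ := Finset.mem_biUnion.1
      (Finset.inr_mem_disjSum.1 (hR1 a (hA21 a ha) h1))
    obtain ⟨k', hk', h3⟩ := Finset.mem_image.1 h2
    obtain ⟨rfl, rfl⟩ := Prod.mk.inj h3
    exact hk'
  obtain ⟨a0, ha0⟩ : A2.Nonempty := by
    rw [Set.nonempty_iff_ne_empty]
    rintro rfl
    exact hA2 Set.countable_empty
  -- the root
  let f : I → CV M := fun i => if i ∈ R then
    ⟨(p a0 i).stem, (p a0 i).pr.filter fun k => Sum.inr (i, k) ∈ R1⟩ else CV.top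
  have hf1 : ∀ i ∈ R, f i = ⟨(p a0 i).stem, (p a0 i).pr.filter fun k => Sum.inr (i, k) ∈ R1⟩ :=
    fun i hi => if_pos hi
  have hf2 : ∀ i ∉ R, f i = CV.top := fun i hi => if_neg hi
  obtain ⟨u, hu⟩ : ∃ u : Cond M rs, ∀ i, u i = f i := by
    refine ⟨⟨f, (Finset.finite_toSet R).subset fun i hi => ?_, fun i hr => ?_⟩, fun _ => rfl⟩
    · by_contra hcon
      exact hi (hf2 i hcon)
    · by_cases hi : i ∈ R
      · rw [hf1 i hi]
        refine ⟨(Finset.card_filter_le _ _).trans ((p a0).legit hr).1, ((p a0).legit hr).2⟩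
      · rw [hf2 i hi]
        exact legit_top
  have hu1 : ∀ i ∈ R, (u i).stem = (p a0 i).stem := fun i hi => by rw [hu, hf1 i hi]
  have hu2 : ∀ i ∈ R, ∀ k, k ∈ (u i).pr ↔ Sum.inr (i, k) ∈ R1 := by
    intro i hi k
    rw [hu, hf1 i hi, Finset.mem_filter]
    exact ⟨fun h => h.2, fun h => ⟨hRpr a0 ha0 i k h, h⟩⟩
  have hu3 : ∀ i ∉ R, u i = CV.top := fun i hi => by rw [hu, hf2 i hi]
  have hpu : ∀ a ∈ A2, le Γ Set.univ (p a) u := by
    intro a ha i _
    by_cases hi : i ∈ R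
    · refine ext_same_stem (by rw [hu1 i hi, hstem a ha a0 ha0 i hi]) fun k hk => ?_
      exact hRpr a ha i k ((hu2 i hi k).1 hk)
    · exact ext_top (hu3 i hi)
  refine ⟨A2, u, fun a ha => hA1A (hA21 a ha), hA2, hpu, fun u1 hu1u => ?_⟩
  obtain ⟨E, hE⟩ : ∃ E : ℕ, ∀ j ∈ R, (u j).stem.length ≤ E :=
    ⟨R.sup fun j => (u j).stem.length, fun j hj =>
      Finset.le_sup (f := fun j => (u j).stem.length) hj⟩
  obtain ⟨u', hu'1, hu'2, -⟩ := long_all Γ E R u1
  have hu'u : le Γ Set.univ u' u := le_trans' low_univ hu'1 hu1u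
  -- the exceptional sets
  let B1 : Set α := ⋃ i ∈ u'.supp, {a ∈ A2 | i ∉ R ∧ p a i ≠ CV.top}
  let B2 : Set α := ⋃ j ∈ R, ⋃ c ∈ R ∪ u'.supp, {a ∈ A2 | ∃ k x ε, k ∈ (p a j).pr ∧
    Sum.inr (j, k) ∉ R1 ∧ Γ.req j k = some (x, c, ε)}
  let B3 : Set α := ⋃ j ∈ R, ⋃ j' ∈ R, ⋃ k ∈ {k | ∃ x c ε k' x' ε',
    Γ.req j k = some (x, c, ε) ∧ Γ.req j' k' = some (x', c, ε') ∧ ε ≠ ε'},
      {a ∈ A2 | k ∈ (p a j).pr ∧ Sum.inr (j, k) ∉ R1}
  have hB1 : B1.Finite := by
    refine Set.Finite.biUnion (Finset.finite_toSet _) fun i _ => Set.Subsingleton.finite ?_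
    rintro a ⟨ha, h1, h2⟩ b ⟨hb, _, h4⟩
    exact hdsupp a ha b hb i h1 h2 h4
  have hB2 : B2.Finite := by
    refine Set.Finite.biUnion (Finset.finite_toSet _) fun j _ => ?_
    refine Set.Finite.biUnion (Finset.finite_toSet _) fun c _ => Set.Subsingleton.finite ?_
    rintro a ⟨ha, k, x, ε, h1, h2, h3⟩ b ⟨hb, k', x', ε', h4, h5, h6⟩
    have hkk : k = k' := hG.inj j j k k' x x' c ε ε' h3 h6
    subst hkk
    exact hdpr a ha b hb j k h2 h1 h4
  have hB3 : B3.Finite := by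
    refine Set.Finite.biUnion (Finset.finite_toSet _) fun j _ => ?_
    refine Set.Finite.biUnion (Finset.finite_toSet _) fun j' _ => ?_
    refine Set.Finite.biUnion (hG.coh j j') fun k _ => Set.Subsingleton.finite ?_
    rintro a ⟨ha, h1, h2⟩ b ⟨hb, h4, _⟩
    exact hdpr a ha b hb j k h2 h1 h4
  refine ⟨B1 ∪ B2 ∪ B3, R ∪ u'.supp, (hB1.union hB2).union hB3, fun a ha hab => ?_⟩
  have hab1 : a ∉ B1 := fun h => hab (Or.inl (Or.inl h))
  have hab2 : a ∉ B2 := fun h => hab (Or.inl (Or.inr h))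
  have hab3 : a ∉ B3 := fun h => hab (Or.inr h)
  obtain ⟨P, hP1, hP2, hP3⟩ := amalg hG (p := p a) (u := u) (u' := u') (R := R)
    (hp a (hA1A (hA21 a ha)))
    (fun i hi => by rw [hu1 i hi, hstem a ha a0 ha0 i hi]) hu'u
    (by
      intro j hj hr
      have h1 := ((p a).legit hr).1
      have h2 := hu'2 j hj
      have h3 := hE j hj
      rw [hu1 j hj, hstem a0 ha0 a ha j hj] at h3
      omega)
    (by
      intro i hi
      by_contra hcon
      push Not at hcon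
      refine hab1 ?_
      simp only [B1, Set.mem_iUnion]
      exact ⟨i, Cond.mem_supp.2 hcon.2, ha, hi, hcon.1⟩)
    (by
      intro j hj k hk hk' x c ε hx
      rw [hu2 j hj] at hk'
      by_contra hcon
      refine hab2 ?_
      simp only [B2, Set.mem_iUnion]
      refine ⟨j, hj, c, ?_, ha, k, x, ε, hk, hk', hx⟩
      rw [Finset.mem_union, Cond.mem_supp]
      by_contra hcc
      push Not at hcc
      exact hcon hcc)
    (by
      intro j hj k hk hk' x c ε hx j' hj' k' _ _ x' ε' hx'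
      rw [hu2 j hj] at hk'
      by_contra hcon
      refine hab3 ?_
      simp only [B3, Set.mem_iUnion]
      exact ⟨j, hj, j', hj', k, ⟨x, c, ε, k', x', ε', hx, hx', hcon⟩, ha, hk, hk'⟩)
  refine ⟨P, hP1, le_trans' low_univ hP2 hu'1, fun i hi hreq => ?_⟩
  rw [Finset.mem_union, not_or, Cond.mem_supp, not_not] at hi
  exact hP3 i hi.1 hi.2 hreq

theorem ccc {lv : I → W} (hG : Good Γ lv) : CCC Γ := by
  intro A hA
  choose p' hp' hprep using fun p : Cond M rs => prep hG p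
  obtain ⟨A', u, hA'A, hA', hpu, h⟩ := fan hG hA p' fun a _ => hprep a
  obtain ⟨b, hb⟩ : A'.Nonempty := by
    rw [Set.nonempty_iff_ne_empty]
    rintro rfl
    exact hA' Set.countable_empty
  obtain ⟨B, F, hB, h⟩ := h (p' b) (hpu b hb)
  have h1 : ¬ (A' \ (insert b B)).Countable := by
    intro hc
    apply hA'
    refine (hc.union (hB.countable.insert b)).mono fun a ha => ?_
    by_cases hb : a ∈ insert b B
    · exact Or.inr hb
    · exact Or.inl ⟨ha, hb⟩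
  obtain ⟨a, ha, hab⟩ : (A' \ (insert b B)).Nonempty := by
    rw [Set.nonempty_iff_ne_empty]
    intro he
    rw [he] at h1
    exact h1 Set.countable_empty
  obtain ⟨P, hP1, hP2, -⟩ := h a ha fun h => hab (Set.mem_insert_of_mem _ h)
  exact ⟨a, hA'A ha, b, hA'A hb, fun h => hab (h ▸ Set.mem_insert _ _), P,
    le_trans' low_univ hP1 (hp' a), le_trans' low_univ hP2 (hp' b)⟩

end Pool.Agent.H631.PC
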