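import Pool.Agent.H631.PC.Slal2

/-!
# `cofin⁻(I_f)` is an ordinal
-/

set_option autoImplicit false
set_option linter.unusedSectionVars false

namespace Pool.Agent.H631.PC

open Classical Cardinal Filter Topology Pool.Agent.R165.Cof

theorem cofinMinus_lt_top {X : Type} {I : Set (Set X)} (hI : IsIdeal I)
    (hfin : ∀ G : Set (Set X), G.Finite → G ⊆ I → ∃ A ∈ I, ¬ A ⊆ ⋃₀ G) : cofinMinus I < ⊤ := by
  let gen : Set (Set X) → Set (Set X) := fun F => {A | ∃ G : Set (Set X), G.Finite ∧ G ⊆ F ∧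
    A ⊆ ⋃₀ G}
  have hne : {c : Cardinal.{0} | ∃ F : Set (Set X), F ⊆ I ∧ I ⊆ gen F ∧ #F = c}.Nonempty :=
    ⟨#I, I, Set.Subset.rfl, fun A hA => ⟨{A}, Set.finite_singleton A,
      Set.singleton_subset_iff.2 hA, by simp⟩, rfl⟩
  obtain ⟨F, hFI, hF, hFc⟩ := csInf_mem hne
  set κ := sInf {c : Cardinal.{0} | ∃ F : Set (Set X), F ⊆ I ∧ I ⊆ gen F ∧ #F = c} with hκ
  have hmin : ∀ F' : Set (Set X), F' ⊆ I → I ⊆ gen F' → κ ≤ #F' := fun F' h1 h2 =>
    csInf_le' ⟨F', h1, h2, rfl⟩
  have hinf : ℵ₀ ≤ κ := by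
    by_contra hcon
    rw [not_le, ← hFc, Cardinal.lt_aleph0_iff_set_finite] at hcon
    obtain ⟨A, hA, hA'⟩ := hfin F hcon hFI
    obtain ⟨G, -, hG, hAG⟩ := hF hA
    exact hA' (hAG.trans (Set.sUnion_subset_sUnion hG))
  have hcard : #κ.ord.ToType = #F := by
    rw [Cardinal.mk_ord_toType]
    exact hFc.symm
  obtain ⟨e⟩ := Cardinal.eq.1 hcard
  have hgI : ∀ F' : Set (Set X), F' ⊆ I → gen F' ⊆ I := by
    rintro F' h A ⟨G, hG, hGF, hA⟩
    have h1 : ∀ G : Set (Set X), G.Finite → G ⊆ F' → ⋃₀ G ∈ I := by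
      intro G hG
      induction G, hG using Set.Finite.induction_on with
      | empty =>
        intro _
        rw [Set.sUnion_empty]
        exact hI.1
      | insert _ _ ih =>
        intro hs
        rw [Set.sUnion_insert]
        exact hI.2.2 _ (h (hs (Set.mem_insert _ _))) _ (ih ((Set.subset_insert _ _).trans hs))
    exact hI.2.1 _ (h1 G hG hGF) _ hA
  let D : κ.ord.ToType → Set (Set X) := fun α => {B | ∃ i, i < α ∧ B = (e i : Set X)}
  have hDI : ∀ α, D α ⊆ I := by
    rintro α B ⟨i, -, rfl⟩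
    exact hFI (e i).2
  have hDc : ∀ α, #(D α) < κ := by
    intro α
    have h1 : D α = (fun i => (e i : Set X)) '' Set.Iio α := by
      ext B
      constructor
      · rintro ⟨i, hi, rfl⟩
        exact ⟨i, hi, rfl⟩
      · rintro ⟨i, hi, rfl⟩
        exact ⟨i, hi, rfl⟩
    rw [h1]
    refine Cardinal.mk_image_le.trans_lt ?_
    have h2 : #(Set.Iio α) < κ := by simpa using mk_Iio_lt α
    exact h2
  have hnomax : ∀ α : κ.ord.ToType, ∃ β, α < β := by
    intro α
    by_contra hcon
    push Not at hcon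
    have h1 : (Set.univ : Set κ.ord.ToType) ⊆ insert α (Set.Iio α) := by
      intro β _
      rcases (hcon β).lt_or_eq with h | h
      · exact Or.inr h
      · exact Or.inl h
    have h2 : #(Set.Iio α) < κ := by simpa using mk_Iio_lt α
    have h3 : κ ≤ #(insert α (Set.Iio α) : Set κ.ord.ToType) := by
      have := Cardinal.mk_le_mk_of_subset h1
      rwa [Cardinal.mk_univ, Cardinal.mk_ord_toType] at this
    have h4 : #(insert α (Set.Iio α) : Set κ.ord.ToType) < κ := by
      refine Cardinal.mk_insert_le.trans_lt ?_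
      exact Cardinal.add_lt_of_lt hinf h2 (Cardinal.one_lt_aleph0.trans_le hinf)
    exact absurd h3 (not_le.2 h4)
  have hne' : Nonempty κ.ord.ToType := by
    rw [← Cardinal.mk_ne_zero_iff, Cardinal.mk_ord_toType]
    exact (Cardinal.aleph0_pos.trans_le hinf).ne'
  obtain ⟨γ, hγ, -⟩ := exists_hasSeq (Q := IsIdeal) (Q0 := fun _ => True) (I := I)
    (fun α => gen (D α)) (by
      intro α
      refine ⟨⟨∅, Set.finite_empty, Set.empty_subset _, Set.empty_subset _⟩, ?_, ?_⟩
      · rintro A ⟨G, h1, h2, h3⟩ B hB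
        exact ⟨G, h1, h2, hB.trans h3⟩
      · rintro A ⟨G, h1, h2, h3⟩ B ⟨G', h1', h2', h3'⟩
        refine ⟨G ∪ G', h1.union h1', Set.union_subset h2 h2', Set.union_subset ?_ ?_⟩
        · exact h3.trans (Set.sUnion_subset_sUnion Set.subset_union_left)
        · exact h3'.trans (Set.sUnion_subset_sUnion Set.subset_union_right))
    (fun _ => trivial) (by
      rintro α β hαβ A ⟨G, h1, h2, h3⟩
      refine ⟨G, h1, fun B hB => ?_, h3⟩
      obtain ⟨i, hi, rfl⟩ := h2 hB
      exact ⟨i, hi.trans_le hαβ, rfl⟩) (by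
      ext A
      constructor
      · intro hA
        obtain ⟨G, hG, hGF, hAG⟩ := hF hA
        have h1 : ∃ α : κ.ord.ToType, G ⊆ D α := by
          clear hAG
          induction G, hG using Set.Finite.induction_on with
          | empty => exact ⟨hne'.some, Set.empty_subset _⟩
          | @insert a s _ _ ih =>
            obtain ⟨α, hα⟩ := ih ((Set.subset_insert _ _).trans hGF)
            have ha : a ∈ F := hGF (Set.mem_insert _ _)
            obtain ⟨β, hβ⟩ := hnomax (max α (e.symm ⟨a, ha⟩))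
            refine ⟨β, Set.insert_subset ⟨e.symm ⟨a, ha⟩, (le_max_right _ _).trans_lt hβ,
              by simp⟩ fun B hB => ?_⟩
            obtain ⟨i, hi, rfl⟩ := hα hB
            exact ⟨i, hi.trans ((le_max_left _ _).trans_lt hβ), rfl⟩
        obtain ⟨α, hα⟩ := h1
        exact ⟨α, G, hG, hα, hAG⟩
      · rintro ⟨α, hA⟩
        exact hgI _ (hDI α) hA) (by
      intro α hα
      have h1 := hmin (D α) (hDI α) (by rw [hα])
      exact absurd h1 (not_le.2 (hDc α)))
  exact lt_top_of hγ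

theorem cofinMinus_slal {f : ℕ → ℕ} (hf : StrictMono f) (hf0 : ∀ n, 0 < f n) :
    cofinMinus (SlalIdeal f) < ⊤ := by
  have hI := slal_sigma hf0
  refine cofinMinus_lt_top hI.1 fun G hG hGI => ?_
  have h0 : ⋃₀ G ∈ SlalIdeal f := by
    induction G, hG using Set.Finite.induction_on with
    | empty =>
      rw [Set.sUnion_empty]
      exact hI.1.1
    | insert _ _ ih =>
      rw [Set.sUnion_insert]
      exact hI.1.2.2 _ (hGI (Set.mem_insert _ _)) _ (ih ((Set.subset_insert _ _).trans hGI))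
  obtain ⟨φ, hφ, hsub⟩ := h0
  obtain ⟨N, hN⟩ := (null_iff hf0).1 hφ 1
  have h1 : ∀ n, ∃ i : Fin (f n), N ≤ n → i ∉ φ n := by
    intro n
    by_cases hn : N ≤ n
    · have h2 := hN n hn
      have h3 := hf0 n
      have h4 : (φ n).card < (Finset.univ : Finset (Fin (f n))).card := by
        rw [Finset.card_univ, Fintype.card_fin]
        omega
      obtain ⟨i, _, hi⟩ := Finset.exists_mem_notMem_of_card_lt_card h4
      exact ⟨i, fun _ => hi⟩
    · exact ⟨⟨0, hf0 n⟩, fun h => absurd h hn⟩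
  choose i hi using h1
  refine ⟨Cap fun n => {i n}, ⟨_, (null_iff hf0).2 fun v => ⟨4 ^ v, fun n hn => ?_⟩,
    Set.Subset.rfl⟩, fun hcon => ?_⟩
  · rw [Finset.card_singleton, one_mul]
    exact hn.trans (hf.id_le n)
  · have h2 : i ∈ Cap fun n => {i n} :=
      (Eventually.of_forall fun n => Finset.mem_singleton_self _).frequently
    obtain ⟨n, hn, hn'⟩ := (frequently_atTop.1 (hsub (hcon h2))) N
    exact hi n hn hn'

end Pool.Agent.H631.PC
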