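import Pool.Agent.H631.PC.Fan
import Pool.Agent.H631.PC.Raw

/-!
# The statements which are forced
-/

set_option autoImplicit false
set_option linter.unusedSectionVars false

namespace Pool.Agent.H631.PC

open Classical Pool.Agent.Helper669.Forcing

section

variable {M I W : Type} {rs : I → Prop} [LinearOrder W] [WellFoundedLT W] {Γ : Par M W rs}

theorem getD_eq_of_common {a b c : Cond M rs} {j : I} {n : ℕ} (h1 : le Γ Set.univ c a)
    (h2 : le Γ Set.univ c b) (ha : n < (a j).stem.length) (hb : n < (b j).stem.length) :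
    (a j).stem.getD n ∅ = (b j).stem.getD n ∅ := by
  rw [← getD_prefix (ext_stem (h1 j (Set.mem_univ _))) ha,
    ← getD_prefix (ext_stem (h2 j (Set.mem_univ _))) hb]

theorem length_le {a c : Cond M rs} (j : I) (h : le Γ Set.univ c a) :
    (a j).stem.length ≤ (c j).stem.length := (ext_stem (h j (Set.mem_univ _))).length_le

/-- the name of the Cohen real with the coordinate `j` -/
def coh (Γ : Par M W rs) (j : I) : ℕ → ℕ → Set (PP Γ) := fun n b =>
  {r | n < (PP.toC r j).stem.length ∧ ((PP.toC r j).stem.getD n ∅).card = b}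

theorem coh_isFun (j : I) (p : PP Γ) : p ∈ IsFun (coh Γ j) := by
  refine ⟨fun n => ?_, fun n v v' => ?_⟩
  · refine mem_fex.2 fun r hr => ?_
    obtain ⟨r', hr', hlen, -⟩ := ext_long Γ j (n + 1) (PP.toC r)
    refine ⟨(r' : PP Γ), hr', ((r' j).stem.getD n ∅).card, ?_⟩
    exact meets_of_mem (P := PP Γ) (N := coh Γ j n _) (p := r') ⟨hlen, rfl⟩
  · refine mem_fimp.2 fun r hr h => ⟨r, le_rfl, ?_⟩
    obtain ⟨s, hs, z, hz, hsz⟩ := h.1 r le_rfl
    obtain ⟨s', hs', z', hz', hsz'⟩ := h.2 s hs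
    have h1 : le Γ Set.univ (PP.toC s') (PP.toC z) := hs'.trans hsz
    have h2 : le Γ Set.univ (PP.toC s') (PP.toC z') := hsz'
    show v = v'
    rw [← hz.2, ← hz'.2, getD_eq_of_common h1 h2 hz.1 hz'.1]

/-- `InfEqual K` is forced -/
theorem infEqual {lv : I → W} (hG : Good Γ lv) {K : Type} [Uncountable K] (lc : K → I)
    (hinj : Function.Injective lc) (hrs : ∀ l, ¬ rs (lc l))
    (hreq : ∀ l j k x ε, Γ.req j k ≠ some (x, lc l, ε)) (p : PP Γ) :
    p ∈ InfEqualN (PP Γ) K := by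
  refine mem_fex.2 fun p1 hp1 => ⟨p1, le_rfl, fun l => coh Γ (lc l), fun l => coh_isFun _ _, ?_⟩
  intro h
  refine mem_fimp.2 fun q hq hh => ⟨q, le_rfl, ?_⟩
  obtain ⟨X, hX⟩ := rawF (ccc hG) h q hh
  refine mem_fex.2 fun r hr => ?_
  by_contra hcon
  -- for each `l` a bad condition
  have hbad : ∀ l : K, ∃ (N : ℕ) (s : PP Γ), s ≤ r ∧ ∀ s' ≤ s, ∀ n, N ≤ n → ∀ v,
      s' ∈ meets (coh Γ (lc l) n v) → s' ∉ meets (h n v) := by
    intro l
    have h1 : ¬ (r ∈ fall fun N => fex fun n => fand (fground (N ≤ n))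
      (fex fun v => fand (meets (coh Γ (lc l) n v)) (meets (h n v)))) :=
      fun h => hcon ⟨r, le_rfl, l, h⟩
    simp only [mem_fall, not_forall] at h1
    obtain ⟨N, h1⟩ := h1
    rw [mem_fex] at h1
    push Not at h1
    obtain ⟨s, hs, h2⟩ := h1
    refine ⟨N, s, hs, fun s' hs' n hn v hv hv' => ?_⟩
    apply h2 s' hs' n
    refine ⟨hn, mem_fex.2 fun u hu => ⟨u, le_rfl, v, down_meets _ _ hv _ hu,
      down_meets _ _ hv' _ hu⟩⟩
  choose N s hs hs2 using hbad
  choose s' hs' hprep using fun l => prep hG (PP.toC (s l))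
  have hunc : ¬ (Set.univ : Set K).Countable := Set.not_countable_univ
  obtain ⟨⟨N0, L0⟩, hA⟩ := uncountable_fiber hunc fun l => (N l, (s' l (lc l)).stem.length)
  obtain ⟨A', u, hA'A, hA', hpu, hfan⟩ := fan hG hA s' fun a _ => hprep a
  have hn : ∃ n, N0 ≤ n ∧ L0 ≤ n := ⟨max N0 L0, le_max_left _ _, le_max_right _ _⟩
  obtain ⟨n, hn0, hnL⟩ := hn
  obtain ⟨u', hu', v, hv⟩ := Val.dense (Γ := Γ) low_univ u X n
  obtain ⟨B, F, hB, hfan⟩ := hfan u' hu'
  have h1 : ¬ (A' \ (B ∪ {l | lc l ∈ F})).Countable := by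
    intro hc
    apply hA'
    have hfin : {l | lc l ∈ F}.Finite :=
      Set.Finite.preimage (hinj.injOn) (Finset.finite_toSet F)
    refine (hc.union (hB.union hfin).countable).mono fun a ha => ?_
    by_cases hb : a ∈ B ∪ {l | lc l ∈ F}
    · exact Or.inr hb
    · exact Or.inl ⟨ha, hb⟩
  obtain ⟨l, hl, hlB⟩ : (A' \ (B ∪ {l | lc l ∈ F})).Nonempty := by
    rw [Set.nonempty_iff_ne_empty]
    intro he
    rw [he] at h1
    exact h1 Set.countable_empty
  obtain ⟨P, hP1, hP2, hP3⟩ := hfan l hl fun h => hlB (Or.inl h)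
  have hPl : P (lc l) = s' l (lc l) := hP3 _ (fun h => hlB (Or.inr h)) (hreq l)
  have hlA : (N l, (s' l (lc l)).stem.length) = (N0, L0) := (hA'A hl).2
  have hNl : N l = N0 := (Prod.mk.inj hlA).1
  have hLl : (P (lc l)).stem.length = L0 := by
    rw [hPl]
    exact (Prod.mk.inj hlA).2
  let P' : Cond M rs := upd P (lc l)
    ⟨((P (lc l)).stem ++ List.replicate (n - L0) ∅) ++ [Finset.range v], (P (lc l)).pr⟩
    fun h => absurd h (hrs l)
  have hP'l : P' (lc l) = ⟨((P (lc l)).stem ++ List.replicate (n - L0) ∅) ++ [Finset.range v],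
      (P (lc l)).pr⟩ := upd_same _ _ _ _
  have hP'P : le Γ Set.univ P' P := by
    intro i _
    by_cases hi : i = lc l
    · subst hi
      refine ext_noreq (hG.cohen _ (hrs l)) ?_ (by rw [hP'l])
      rw [hP'l, List.append_assoc]
      exact List.prefix_append _ _
    · exact ext_of_eq (upd_of_ne _ _ _ hi)
  have hlen0 : ((P (lc l)).stem ++ List.replicate (n - L0) (∅ : Finset ℕ)).length = n := by
    rw [List.length_append, List.length_replicate, hLl]
    omega
  have hP's : @LE.le (PP Γ) _ P' (s l) :=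
    le_trans' low_univ (le_trans' low_univ hP'P hP1) (hs' l)
  refine hs2 l P' hP's n (by rw [hNl]; exact hn0) v ?_ ?_
  · refine meets_of_mem (P := PP Γ) (N := coh Γ (lc l) n v) (p := P') ⟨?_, ?_⟩
    · show n < (P' (lc l)).stem.length
      rw [hP'l]
      simp only [List.length_append, hlen0, List.length_cons, List.length_nil]
      omega
    · show ((P' (lc l)).stem.getD n ∅).card = v
      rw [hP'l]
      simp only
      rw [List.getD_append_right _ _ _ _ hlen0.le, hlen0]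
      simp
  · refine hX P' ?_ n v ?_
    · exact le_trans hP's ((hs l).trans hr)
    · exact hv.mono low_univ (le_trans' low_univ hP'P hP2)

/-- `PartlyCaptured T C` is forced -/
theorem partlyCaptured {lv : I → W} (hG : Good Γ lv) {T C : Type} [Nonempty T] (cc : C → I)
    (hreq : ∀ (x : T → Nm M rs) (E : T → C → Nm M rs), ∃ j, ∀ k, ∃ m c,
      Γ.req j m = some (x k, cc c, E k c)) (p : PP Γ) :
    p ∈ PartlyCapturedN (PP Γ) T C := by
  refine mem_fex.2 fun p1 hp1 => ⟨p1, le_rfl, fun c => coh Γ (cc c), fun c => coh_isFun _ _, ?_⟩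
  intro x E
  refine mem_fimp.2 fun q hq hh => ⟨q, le_rfl, ?_⟩
  choose X hX using fun k => rawF (ccc hG) (x k) q (hh.1 k)
  choose e he using fun (k : T) (c : C) => rawE (ccc hG) (E k) c q (hh.2 k)
  obtain ⟨j, hj⟩ := hreq X e
  obtain ⟨k0⟩ := ‹Nonempty T›
  obtain ⟨m0, c0, hm0⟩ := hj k0
  have hrs : rs j := (hG.part j m0 _ _ _ hm0).1
  refine mem_fex.2 fun q1 hq1 => ⟨q1, le_rfl, fun n v =>
    {r | n < (PP.toC r j).stem.length ∧ v ∈ (PP.toC r j).stem.getD n ∅}, ?_, ?_⟩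
  · -- a slalom
    intro n t
    refine mem_fimp.2 fun r hr hn => ⟨r, le_rfl, ?_⟩
    have hn' : n < t.card := hn
    refine mem_fex.2 fun s hs => ?_
    obtain ⟨s', hs', hlen, -⟩ := ext_long Γ j (n + 1) (PP.toC s)
    have hcard : ((s' j).stem.getD n ∅).card ≤ n := (s'.legit hrs).2 n (by omega)
    obtain ⟨v, hv, hv'⟩ := Finset.exists_mem_notMem_of_card_lt_card (hcard.trans_lt hn')
    refine ⟨(s' : PP Γ), hs', v, hv, ?_⟩
    intro u hu hm
    obtain ⟨w, hw, z, hz, hwz⟩ := hm u le_rfl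
    apply hv'
    have h1 : le Γ Set.univ (PP.toC w) s' := hw.trans hu
    have h2 : le Γ Set.univ (PP.toC w) (PP.toC z) := hwz
    rw [getD_eq_of_common h1 h2 (by omega) hz.1]
    exact hz.2
  · -- capturing
    intro k
    obtain ⟨m, c, hmc⟩ := hj k
    obtain ⟨-, hlt, -, -, hs1, hs2⟩ := hG.part j m _ _ _ hmc
    refine mem_fex.2 fun r hr => ?_
    obtain ⟨r', hr', hlen, hpr, -⟩ := ext_long Γ j ((PP.toC r j).pr.card + 1) (PP.toC r)
    have hleg : Legit (M := M) ⟨(r' j).stem, insert m (r' j).pr⟩ := by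
      refine ⟨?_, (r'.legit hrs).2⟩
      refine (Finset.card_insert_le _ _).trans ?_
      rw [hpr]
      exact hlen
    let r1 : Cond M rs := upd r' j ⟨(r' j).stem, insert m (r' j).pr⟩ fun _ => hleg
    have hr1j : r1 j = ⟨(r' j).stem, insert m (r' j).pr⟩ := upd_same _ _ _ _
    have hr1 : le Γ Set.univ r1 r' := by
      intro i _
      by_cases hi : i = j
      · subst hi
        exact ext_same_stem (by rw [hr1j]) (by rw [hr1j]; exact Finset.subset_insert _ _)
      · exact ext_of_eq (upd_of_ne _ _ _ hi)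
    have hr1r : (@LE.le (PP Γ) _ r1 r) := le_trans' low_univ hr1 hr'
    refine ⟨r1, hr1r, c, ?_⟩
    refine mem_fex.2 fun R hR => ⟨R, le_rfl, (PP.toC R j).stem.length, ?_⟩
    have hRm : m ∈ (PP.toC R j).pr := by
      have h1 : ext Γ j (PP.toC R) r1 := hR j (Set.mem_univ _)
      apply ext_pr h1
      rw [hr1j]
      exact Finset.mem_insert_self _ _
    intro n
    refine mem_fimp.2 fun R2 hR2 hn => ⟨R2, le_rfl, ?_⟩
    have hn' : (PP.toC R j).stem.length ≤ n := hn
    refine mem_fimp.2 fun R3 hR3 hne => ?_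
    -- extend
    obtain ⟨a1, ha1, hl1, -⟩ := ext_long Γ j (n + 1) (PP.toC R3)
    obtain ⟨a2, ha2, hl2, -⟩ := ext_long Γ (cc c) (n + 1) a1
    obtain ⟨a3, ha3, e0, he0⟩ := Val.dense (Γ := Γ) low_univ a2 (e k c) 0
    obtain ⟨a4, ha4, v, hv⟩ := Val.dense (Γ := Γ) low_univ a3 (X k) n
    have h42 : le Γ Set.univ a4 a2 := le_trans' low_univ ha4 ha3
    have h41 : le Γ Set.univ a4 a1 := le_trans' low_univ h42 ha2
    have h4R3 : (@LE.le (PP Γ) _ a4 R3) := le_trans' low_univ h41 ha1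
    have h4R : (@LE.le (PP Γ) _ a4 R) := h4R3.trans (hR3.trans hR2)
    have h4q : (@LE.le (PP Γ) _ a4 q) :=
      h4R.trans (hR.trans (hr1r.trans (hr.trans hq1)))
    have he4 : Val (le Γ Set.univ) a4 (e k c) 0 e0 := he0.mono low_univ ha4
    have hlj : n < (a4 j).stem.length := lt_of_lt_of_le hl1 (length_le j h41)
    have hlc : n < (a4 (cc c)).stem.length := lt_of_lt_of_le hl2 (length_le (cc c) h42)
    have key : ((a4 (cc c)).stem.getD n ∅).card ≠ e0 := by
      intro h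
      refine (hne a4 h4R3) (mem_fex.2 fun b hb => ⟨b, le_rfl, e0, ?_, ?_⟩)
      · exact down_meets _ _ (meets_of_mem (P := PP Γ) (N := coh Γ (cc c) n e0) (p := a4)
          ⟨hlc, h⟩) _ hb
      · exact down_meets _ _ (he k c a4 h4q e0 he4) _ hb
    have hmem : v ∈ (a4 j).stem.getD n ∅ := by
      have h1 : ext Γ j a4 (PP.toC R) := h4R j (Set.mem_univ _)
      rw [ext_iff] at h1
      refine h1.2.2 m hRm _ _ _ hmc n hn' hlj a4 (le_refl' _ _) v ?_ ?_
      · refine (Val.iff_of_supp (low_below _) (Set.subset_univ _) ?_).1 hv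
        exact hs1.mono fun i hi => lt_trans hi hlt
      · exact ⟨hlc, e0, (Val.iff_of_supp (low_below _) (Set.subset_univ _) hs2).1 he4, key⟩
    refine ⟨a4, h4R3, ?_⟩
    refine mem_fex.2 fun b hb => ⟨b, le_rfl, v, ?_, ?_⟩
    · exact down_meets _ _ (hX k a4 h4q n v hv) _ hb
    · exact down_meets _ _ (meets_of_mem (P := PP Γ) (N := {r : PP Γ | n < (PP.toC r j).stem.length ∧
        v ∈ (PP.toC r j).stem.getD n ∅}) (p := a4) ⟨hlj, hmem⟩) _ hb

end

open Cardinal in
/-- ccc notions of forcing do not collapse cardinals -/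
theorem notOnto {P : Type} [Preorder P]
    (hccc : ∀ A : Set P, (∀ p ∈ A, ∀ q ∈ A, p ≠ q → ¬ ∃ r, r ≤ p ∧ r ≤ q) → A.Countable)
    {X Y : Type} [Infinite X] (h : #X < #Y) (p : P) : p ∈ NotOntoN P X Y := by
  intro q hq hcon
  obtain ⟨r, hr, f, hf1, hf2⟩ := mem_fex.1 hcon q le_rfl
  have h1 : ∀ y : Y, ∃ s ≤ r, ∃ x : X, s ∈ meets (f x y) := fun y => mem_fex.1 (hf2 y) r le_rfl
  choose s hs x hx using h1
  have h2 : ∃ x0, ¬ (x ⁻¹' {x0}).Countable := by
    by_contra hcon
    push Not at hcon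
    have h3 : (Set.univ : Set Y) = ⋃ x0, x ⁻¹' {x0} := by
      ext a
      simp
    have h4 : #Y ≤ #X := by
      rw [← Cardinal.mk_univ, h3]
      refine (Cardinal.mk_iUnion_le _).trans ?_
      calc #X * _ ≤ #X * ℵ₀ := by
            apply mul_le_mul' le_rfl
            apply ciSup_le'
            intro z
            exact Cardinal.mk_le_aleph0_iff.2 (hcon z).to_subtype
        _ = #X := Cardinal.mul_aleph0_eq (Cardinal.aleph0_le_mk X)
    exact absurd h4 (not_le.2 h)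
  obtain ⟨x0, hx0⟩ := h2
  have key : ∀ y ∈ x ⁻¹' {x0}, ∀ y' ∈ x ⁻¹' {x0}, (∃ t, t ≤ s y ∧ t ≤ s y') → y = y' := by
    rintro y hy y' hy' ⟨t, ht, ht'⟩
    have e1 : x y = x0 := hy
    have e2 : x y' = x0 := hy'
    have h3 := down_meets _ _ (hx y) _ ht
    have h4 := down_meets _ _ (hx y') _ ht'
    rw [e1] at h3
    rw [e2] at h4
    exact IsFun.unique (down_IsFun f _ hf1 _ (ht.trans (hs y))) h3 h4
  have hinj : Set.InjOn s (x ⁻¹' {x0}) := by
    intro y hy y' hy' hyy
    exact key y hy y' hy' ⟨s y, le_rfl, by rw [hyy]⟩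
  have h5 := hccc (s '' (x ⁻¹' {x0})) (by
    rintro _ ⟨y, hy, rfl⟩ _ ⟨y', hy', rfl⟩ hne hcom
    exact hne (by rw [key y hy y' hy' hcom]))
  exact hx0 (Set.countable_of_injective_of_countable_image hinj h5)

end Pool.Agent.H631.PC
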