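import Mathlib

/-!
# Partial capturing: the combinatorial statement
-/

set_option autoImplicit false

namespace Pool.Agent.H631.PC

/-- There is a family of functions indexed by `K` such that every function is infinitely often
equal to some member of the family. -/
def InfEqual (K : Type) : Prop :=
  ∃ y : K → ℕ → ℕ, ∀ h : ℕ → ℕ, ∃ l : K, ∀ N, ∃ n, N ≤ n ∧ y l n = h n

/-- `S` is a slalom of width `h`: every `S n` has at most `h n` elements. -/
def Slalom (h : ℕ → ℕ) (S : ℕ → ℕ → Prop) : Prop :=
  ∀ (n : ℕ) (t : Finset ℕ), h n < t.card → ∃ v ∈ t, ¬ S n v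

/-- There is a family of functions `d` indexed by `C` such that for all families of functions `x`
indexed by `T` and all `E : T → C → ℕ` there is a slalom `S` of width `n` which captures, for all
`k : T`, the restriction of `x k` to the set `{n | d c n ≠ E k c}` for some `c : C`. -/
def PartlyCaptured (T C : Type) : Prop :=
  ∃ d : C → ℕ → ℕ, ∀ (x : T → ℕ → ℕ) (E : T → C → ℕ),
    ∃ S : ℕ → ℕ → Prop, Slalom (fun n => n) S ∧
      ∀ k, ∃ c, ∃ N, ∀ n, N ≤ n → d c n ≠ E k c → S n (x k n)

/-- there is no map from `X` onto `Y` -/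
def NotOnto (X Y : Type) : Prop := ¬ ∃ f : X → Y, ∀ y, ∃ x, f x = y

/-- the combinatorial statement which is forced -/
def PhiFor (K C : Type) (T : ℕ → Type) : Prop :=
  InfEqual K ∧ PartlyCaptured (Σ n, T n) C ∧ ∀ n, NotOnto (T n) (T (n + 1))

end Pool.Agent.H631.PC
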