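import Pool.Agent.H631.PC.Basic
import Pool.Agent.H631.PC.Stm
import Pool.Graph.R_seed8.Helper669.Forcing

/-!
# The preorder of the conditions, the sentence which is forced, good parameters
-/

set_option autoImplicit false
set_option linter.unusedSectionVars false

namespace Pool.Agent.H631.PC

open Classical Pool.Agent.Helper669.Forcing

/-! ### The sentence of the forcing language -/

section Sentence

variable {P : Type} [Preorder P]

/-- Forcing version of `InfEqual`; functions are given by names of their graphs. -/
def InfEqualN (P : Type) [Preorder P] (K : Type) : Set P :=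
  fex fun y : K → ℕ → ℕ → Set P => fand (fall fun l => IsFun (y l))
    (fall fun h : ℕ → ℕ → Set P => fimp (IsFun h)
      (fex fun l => fall fun N => fex fun n => fand (fground (N ≤ n))
        (fex fun v => fand (meets (y l n v)) (meets (h n v)))))

/-- Forcing version of `Slalom`. -/
def SlalomN (h : ℕ → ℕ) (S : ℕ → ℕ → Set P) : Set P :=
  fall fun n => fall fun t : Finset ℕ => fimp (fground (h n < t.card))
    (fex fun v => fand (fground (v ∈ t)) (fnot (meets (S n v))))

/-- Forcing version of `PartlyCaptured`. -/
def PartlyCapturedN (P : Type) [Preorder P] (T C : Type) : Set P :=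
  fex fun d : C → ℕ → ℕ → Set P => fand (fall fun c => IsFun (d c))
    (fall fun x : T → ℕ → ℕ → Set P => fall fun E : T → C → ℕ → Set P =>
      fimp (fand (fall fun k => IsFun (x k)) (fall fun k => IsFun (E k)))
        (fex fun S : ℕ → ℕ → Set P => fand (SlalomN (fun n => n) S)
          (fall fun k => fex fun c => fex fun N => fall fun n => fimp (fground (N ≤ n))
            (fimp (fnot (fex fun v => fand (meets (d c n v)) (meets (E k c v))))
              (fex fun v => fand (meets (x k n v)) (meets (S n v)))))))

/-- Forcing version of `NotOnto`. -/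
def NotOntoN (P : Type) [Preorder P] (X Y : Type) : Set P :=
  fnot (fex fun f : X → Y → Set P => fand (IsFun f) (IsOnto f))

/-- The sentence `PhiFor K C T` of the forcing language. -/
def PhiHolds (P : Type) [Preorder P] (K C : Type) (T : ℕ → Type) : Set P :=
  fand (InfEqualN P K) (fand (PartlyCapturedN P (Σ n, T n) C)
    (fall fun n => NotOntoN P (T n) (T (n + 1))))

end Sentence

/-! ### The preorder of the conditions -/

variable {M I W : Type} {rs : I → Prop} [LinearOrder W] [WellFoundedLT W]

/-- the conditions, with the order given by the parameters -/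
def PP (_Γ : Par M W rs) : Type := Cond M rs

variable {Γ : Par M W rs}

/-- an element of `PP Γ` as a condition -/
abbrev PP.toC (r : PP Γ) : Cond M rs := r

noncomputable instance : Preorder (PP Γ) where
  le q p := le Γ Set.univ q p
  le_refl p := le_refl' Set.univ p
  le_trans _ _ _ h1 h2 := le_trans' low_univ h1 h2

theorem PP.le_def {q p : PP Γ} : q ≤ p ↔ le Γ Set.univ q p := Iff.rfl

/-! ### Good parameters -/

/-- good parameters: restricted coordinates `j` with requirements which depend on Cohen
coordinates `c` of the rank `lv j < rk j` and names `ε`, and Cohen coordinates, which have no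
requirements -/
structure Good (Γ : Par M W rs) (lv : I → W) : Prop where
  part : ∀ j k x c ε, Γ.req j k = some (x, c, ε) →
    rs j ∧ lv j < Γ.rk j ∧ Γ.rk c = lv j ∧ ¬ rs c ∧ Supp (below Γ (lv j)) x ∧
      Supp (below Γ (Γ.rk j)) ε
  cohen : ∀ c, ¬ rs c → ∀ k, Γ.req c k = none
  inj : ∀ j j' k k' x x' c ε ε', Γ.req j k = some (x, c, ε) →
    Γ.req j' k' = some (x', c, ε') → k = k'
  coh : ∀ j j', {k | ∃ x c ε k' x' ε', Γ.req j k = some (x, c, ε) ∧
      Γ.req j' k' = some (x', c, ε') ∧ ε ≠ ε'}.Finite

/-- the countable chain condition -/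
def CCC (Γ : Par M W rs) : Prop :=
  ∀ A : Set (Cond M rs), ¬ A.Countable → ∃ p ∈ A, ∃ q ∈ A, p ≠ q ∧
    ∃ r, le Γ Set.univ r p ∧ le Γ Set.univ r q

theorem rs_of_pr (hG : ∀ (c : I), ¬ rs c → ∀ k, Γ.req c k = none) {j : I} {k : M}
    {x : Nm M rs} {c : I} {ε : Nm M rs} (h : Γ.req j k = some (x, c, ε)) : rs j := by
  by_contra hcon
  rw [hG j hcon k] at h
  exact absurd h (by simp)

end Pool.Agent.H631.PC
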