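import Pool.Agent.H631.PC.Frame

/-!
# Preparation of a condition
-/

set_option autoImplicit false
set_option linter.unusedSectionVars false

namespace Pool.Agent.H631.PC

open Classical

variable {M I W : Type} {rs : I → Prop} [LinearOrder W] [WellFoundedLT W] {Γ : Par M W rs}

/-- the name of the function which is captured -/
def xOf (z : Option (Nm M rs × I × Nm M rs)) : Nm M rs :=
  match z with
  | some (x, _, _) => x
  | none => fun _ _ => none

/-- the name of the exceptional value -/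
def eOf (z : Option (Nm M rs × I × Nm M rs)) : Nm M rs :=
  match z with
  | some (_, _, ε) => ε
  | none => fun _ _ => none

/-- the length of the stem at the Cohen coordinate -/
def lenOf (t : Cond M rs) (z : Option (Nm M rs × I × Nm M rs)) : ℕ :=
  match z with
  | some (_, c, _) => (t c).stem.length
  | none => 0

/-- finitely many values can be decided -/
theorem Val.decideF {β : Type} {T : Set I} (hT : Low Γ T) (F : Finset β)
    (X : β → Nm M rs) (n : β → ℕ) (t : Cond M rs) :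
    ∃ t', le Γ T t' t ∧ ∀ b ∈ F, ∃ v, Val (le Γ T) t' (X b) (n b) v := by
  induction F using Finset.induction_on with
  | empty => exact ⟨t, le_refl' T t, fun b h => absurd h (Finset.notMem_empty b)⟩
  | insert b F _ ih =>
    obtain ⟨t1, h1, h2⟩ := ih
    obtain ⟨t2, h3, v, hv⟩ := Val.dense (Γ := Γ) hT t1 (X b) (n b)
    refine ⟨t2, le_trans' hT h3 h1, fun b' h => ?_⟩
    rcases Finset.mem_insert.1 h with rfl | h
    · exact ⟨v, hv⟩
    · obtain ⟨w, hw⟩ := h2 b' h
      exact ⟨w, hw.mono hT h3⟩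

theorem getD_append_map {s : List (Finset ℕ)} {N i : ℕ} (f : ℕ → Finset ℕ) (h1 : s.length ≤ i)
    (h2 : i < s.length + N) : (s ++ (List.range N).map f).getD i ∅ = f (i - s.length) := by
  rw [List.getD_append_right _ _ _ _ h1, List.getD_eq_getElem _ _ (by simp; omega)]
  simp

theorem getD_append_replicate {s : List (Finset ℕ)} {N i : ℕ} (w : Finset ℕ)
    (h1 : s.length ≤ i) (h2 : i < s.length + N) :
    (s ++ List.replicate N w).getD i ∅ = w := by
  rw [List.getD_append_right _ _ _ _ h1, List.getD_eq_getElem _ _ (by simp; omega)]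
  simp

theorem Cond.top_of_pr {p : Cond M rs} {j : I} {k : M} (h : k ∈ (p j).pr) : j ∈ p.supp := by
  rw [Cond.mem_supp]
  intro htop
  rw [htop] at h
  simp at h

/-- the condition is prepared for the ranks in `U` -/
structure Prepared (Γ : Par M W rs) (lv : I → W) (U : Set W) (p : Cond M rs) : Prop where
  dec : ∀ j, Γ.rk j ∈ U → ∀ k ∈ (p j).pr, ∀ x c ε, Γ.req j k = some (x, c, ε) →
    ∃ e, Val (le Γ (below Γ (Γ.rk j))) p ε 0 e
  len : ∀ j, lv j ∈ U → ∀ k ∈ (p j).pr, ∀ x c ε, Γ.req j k = some (x, c, ε) →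
    (p c).stem.length ≤ (p j).stem.length

/-- every condition can be prepared for the ranks in `U` -/
def PrepOn (Γ : Par M W rs) (lv : I → W) (U : Set W) : Prop :=
  ∀ p : Cond M rs, ∃ p', le Γ Set.univ p' p ∧ Prepared Γ lv U p' ∧
    (∀ i, Γ.rk i ∉ U → ¬ rs i → p' i = p i) ∧ (∀ j, Γ.rk j ∉ U → (p' j).pr = (p j).pr) ∧
    ∀ j, Γ.rk j ∉ U → lv j ∉ U → p' j = p j

theorem prep_step {lv : I → W} (hG : Good Γ lv) {U : Set W} (hU : ∀ ξ ∈ U, ∀ η, η < ξ → η ∈ U)
    (ih : ∀ η ∈ U, PrepOn Γ lv (Set.Iio η)) : PrepOn Γ lv U := by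
  intro p
  by_cases hF : ((p.supp.image Γ.rk ∪ p.supp.image lv).filter (· ∈ U)).Nonempty
  swap
  · rw [Finset.not_nonempty_iff_eq_empty] at hF
    have hF1 : ∀ j ∈ p.supp, Γ.rk j ∉ U ∧ lv j ∉ U := by
      intro j hj
      constructor
      · intro h
        have : Γ.rk j ∈ (p.supp.image Γ.rk ∪ p.supp.image lv).filter (· ∈ U) :=
          Finset.mem_filter.2 ⟨Finset.mem_union_left _ (Finset.mem_image_of_mem _ hj), h⟩
        rw [hF] at this
        exact absurd this (Finset.notMem_empty _)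
      · intro h
        have : lv j ∈ (p.supp.image Γ.rk ∪ p.supp.image lv).filter (· ∈ U) :=
          Finset.mem_filter.2 ⟨Finset.mem_union_right _ (Finset.mem_image_of_mem _ hj), h⟩
        rw [hF] at this
        exact absurd this (Finset.notMem_empty _)
    refine ⟨p, le_refl' _ _, ⟨fun j hj k hk => ?_, fun j hj k hk => ?_⟩, fun _ _ _ => rfl,
      fun _ _ => rfl, fun _ _ _ => rfl⟩
    · exact absurd hj (hF1 j (Cond.top_of_pr hk)).1
    · exact absurd hj (hF1 j (Cond.top_of_pr hk)).2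
  obtain ⟨η, hη, hmax⟩ : ∃ η ∈ (p.supp.image Γ.rk ∪ p.supp.image lv).filter (· ∈ U),
      ∀ w ∈ (p.supp.image Γ.rk ∪ p.supp.image lv).filter (· ∈ U), w ≤ η :=
    ⟨_, Finset.max'_mem _ hF, fun w hw => Finset.le_max' _ w hw⟩
  have hηU : η ∈ U := (Finset.mem_filter.1 hη).2
  have hrkη : ∀ j ∈ p.supp, Γ.rk j ∈ U → Γ.rk j ≤ η := fun j hj h =>
    hmax _ (Finset.mem_filter.2 ⟨Finset.mem_union_left _ (Finset.mem_image_of_mem _ hj), h⟩)
  have hlvη : ∀ j ∈ p.supp, lv j ∈ U → lv j ≤ η := fun j hj h =>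
    hmax _ (Finset.mem_filter.2 ⟨Finset.mem_union_right _ (Finset.mem_image_of_mem _ hj), h⟩)
  have hlow : Low Γ (below Γ η) := low_below η
  -- decide the exceptional values
  obtain ⟨t0, ht0, hd0⟩ := Val.decideF (Γ := Γ) hlow
    (p.supp ×ˢ (p.supp.biUnion fun j => (p j).pr)) (fun z : I × M => eOf (Γ.req z.1 z.2))
    (fun _ => 0) p
  -- the lengths
  obtain ⟨N, hN⟩ : ∃ N : ℕ, ∀ j ∈ p.supp, ∀ k ∈ (p j).pr, ∀ x c ε,
      Γ.req j k = some (x, c, ε) → (p c).stem.length ≤ N := by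
    refine ⟨(p.supp ×ˢ (p.supp.biUnion fun j => (p j).pr)).sup
      fun z : I × M => lenOf p (Γ.req z.1 z.2), fun j hj k hk x c ε hx => ?_⟩
    have h1 : (j, k) ∈ p.supp ×ˢ (p.supp.biUnion fun j => (p j).pr) :=
      Finset.mem_product.2 ⟨hj, Finset.mem_biUnion.2 ⟨j, hj, hk⟩⟩
    have h2 : lenOf p (Γ.req j k) ≤ _ :=
      Finset.le_sup (f := fun z : I × M => lenOf p (Γ.req z.1 z.2)) h1
    rw [hx] at h2
    exact h2
  -- decide the values to be captured
  obtain ⟨t1, ht1, hd1⟩ := Val.decideF (Γ := Γ) hlow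
    (p.supp ×ˢ (p.supp.biUnion fun j => (p j).pr) ×ˢ Finset.range N)
    (fun z : I × M × ℕ => xOf (Γ.req z.1 z.2.1)) (fun z => z.2.2) t0
  have hd' : ∀ j k i, ∃ v, j ∈ p.supp → k ∈ (p j).pr → i < N → ∀ x c ε,
      Γ.req j k = some (x, c, ε) → Val (le Γ (below Γ η)) t1 x i v := by
    intro j k i
    by_cases hj : j ∈ p.supp ∧ k ∈ (p j).pr ∧ i < N
    · obtain ⟨hj, hk, hi⟩ := hj
      obtain ⟨v, hv⟩ := hd1 (j, k, i) (Finset.mem_product.2 ⟨hj, Finset.mem_product.2
        ⟨Finset.mem_biUnion.2 ⟨j, hj, hk⟩, Finset.mem_range.2 hi⟩⟩)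
      refine ⟨v, fun _ _ _ x c ε hx => ?_⟩
      rw [hx] at hv
      exact hv
    · exact ⟨0, fun h4 h5 h6 => absurd ⟨h4, h5, h6⟩ hj⟩
  choose v hv using hd'
  let J : Set I := {j | j ∈ p.supp ∧ rs j ∧ lv j = η ∧ η < Γ.rk j}
  let f : I → CV M := fun i =>
    if Γ.rk i < η then t1 i
    else if i ∈ J then ⟨(p i).stem ++ (List.range (N - (p i).stem.length)).map (fun s =>
          (p i).pr.image fun k => v i k ((p i).stem.length + s)), (p i).pr⟩
    else p i
  have hf1 : ∀ i, Γ.rk i < η → f i = t1 i := fun i hi => if_pos hi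
  have hJη : ∀ i ∈ J, ¬ Γ.rk i < η := fun i hi => not_lt.2 hi.2.2.2.le
  have hf2 : ∀ i ∈ J, f i = ⟨(p i).stem ++
      (List.range (N - (p i).stem.length)).map (fun s =>
        (p i).pr.image fun k => v i k ((p i).stem.length + s)), (p i).pr⟩ := by
    intro i hi
    simp only [f, if_neg (hJη i hi), if_pos hi]
  have hf3 : ∀ i, ¬ Γ.rk i < η → i ∉ J → f i = p i := by
    intro i hi hiJ
    simp only [f, if_neg hi, if_neg hiJ]
  have hfin : {i | f i ≠ CV.top}.Finite := by
    refine Set.Finite.subset (t1.2.1.union p.2.1) ?_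
    intro i hi
    have hi' : f i ≠ CV.top := hi
    by_cases hc1 : Γ.rk i < η
    · rw [hf1 i hc1] at hi'
      exact Or.inl hi'
    by_cases hc2 : i ∈ J
    · exact Or.inr (Cond.mem_supp.1 hc2.1)
    rw [hf3 i hc1 hc2] at hi'
    exact Or.inr hi'
  have hlegit : ∀ i, rs i → Legit (f i) := by
    intro i hr
    by_cases hc1 : Γ.rk i < η
    · rw [hf1 i hc1]
      exact t1.legit hr
    by_cases hc2 : i ∈ J
    · rw [hf2 i hc2]
      have h5 := p.legit hr
      refine ⟨?_, fun s hs => ?_⟩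
      · show (p i).pr.card ≤ _
        rw [List.length_append, List.length_map, List.length_range]
        have := h5.1
        omega
      · simp only at hs ⊢
        rw [List.length_append, List.length_map, List.length_range] at hs
        by_cases hs' : s < (p i).stem.length
        · rw [List.getD_append _ _ _ _ hs']
          exact h5.2 s hs'
        · rw [getD_append_map _ (not_lt.1 hs') hs]
          exact Finset.card_image_le.trans (h5.1.trans (not_lt.1 hs'))
    rw [hf3 i hc1 hc2]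
    exact p.legit hr
  obtain ⟨p2, hp2⟩ : ∃ P : Cond M rs, ∀ i, P i = f i := ⟨⟨f, hfin, hlegit⟩, fun _ => rfl⟩
  have h21 : le Γ (below Γ η) p2 t1 := le_of_eq hlow fun i hi => by rw [hp2, hf1 i hi]
  have h20 : le Γ (below Γ η) p2 t0 := le_trans' hlow h21 ht1
  have h2p : le Γ (below Γ η) p2 p := le_trans' hlow h20 ht0
  have hp2p : le Γ Set.univ p2 p := by
    intro j _
    by_cases hc1 : Γ.rk j < η
    · exact h2p j hc1
    by_cases hc2 : j ∈ J
    swap
    · exact ext_of_eq (by rw [hp2, hf3 j hc1 hc2])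
    rw [ext_iff, hp2, hf2 j hc2]
    refine ⟨List.prefix_append _ _, Finset.Subset.refl _, ?_⟩
    intro k hk x c ε hx s hs1 hs2 t ht n hn _
    simp only at hs2 ⊢
    rw [List.length_append, List.length_map, List.length_range] at hs2
    rw [getD_append_map _ hs1 hs2]
    have hsub : below Γ η ⊆ below Γ (Γ.rk j) := fun i (hi : Γ.rk i < η) =>
      lt_of_lt_of_le hi (not_lt.1 hc1)
    have hsN : s < N := by omega
    obtain ⟨-, -, -, -, hsx, -⟩ := hG.part j k x c ε hx
    rw [hc2.2.2.1] at hsx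
    have h1 := (Val.iff_of_supp hlow hsub hsx).1 hn
    have h2 : le Γ (below Γ η) t t1 := le_trans' hlow (le_mono hsub ht) h21
    rw [h1.unique ((hv j k s hc2.1 hk hsN x c ε hx).mono hlow h2)]
    refine Finset.mem_image.2 ⟨k, hk, ?_⟩
    congr 1
    omega
  -- the values which do not change
  have hp2pr : ∀ i, η ≤ Γ.rk i → (p2 i).pr = (p i).pr := by
    intro i hi
    by_cases hc2 : i ∈ J
    · rw [hp2, hf2 i hc2]
    · rw [hp2, hf3 i (not_lt.2 hi) hc2]
  have hp2co : ∀ i, η ≤ Γ.rk i → i ∉ J → p2 i = p i := by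
    intro i hi hc2
    rw [hp2, hf3 i (not_lt.2 hi) hc2]
  obtain ⟨p3, hp3, hP, h3a, h3b, h3c⟩ := ih η hηU p2
  have hηnot : ∀ i, Γ.rk i ∉ U → Γ.rk i ∉ Set.Iio η := fun i hi h => hi (hU η hηU _ h)
  have hηnot' : ∀ i, lv i ∉ U → lv i ∉ Set.Iio η := fun i hi h => hi (hU η hηU _ h)
  have hηle : ∀ i, Γ.rk i ∉ U → η ≤ Γ.rk i := fun i hi => not_lt.1 (hηnot i hi)
  refine ⟨p3, le_trans' low_univ hp3 hp2p, ⟨?_, ?_⟩, ?_, ?_, ?_⟩
  · intro j hj k hk x c ε hx
    by_cases hc1 : Γ.rk j < η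
    · exact hP.dec j hc1 k hk x c ε hx
    · have h1 : (p3 j).pr = (p j).pr := by
        rw [h3b j hc1, hp2pr j (not_lt.1 hc1)]
      rw [h1] at hk
      have hjs := Cond.top_of_pr hk
      have hjη : Γ.rk j = η := le_antisymm (hrkη j hjs hj) (not_lt.1 hc1)
      obtain ⟨e, he⟩ := hd0 (j, k) (Finset.mem_product.2 ⟨hjs, Finset.mem_biUnion.2 ⟨j, hjs, hk⟩⟩)
      rw [hx] at he
      refine ⟨e, ?_⟩
      rw [hjη]
      exact Val.mono hlow he (le_trans' hlow (le_mono (Set.subset_univ _) hp3) h20)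
  · intro j hj k hk x c ε hx
    by_cases hc1 : lv j < η
    · exact hP.len j hc1 k hk x c ε hx
    · obtain ⟨hrs, hlt, hrc, hnrs, -, -⟩ := hG.part j k x c ε hx
      have hηj : η < Γ.rk j := lt_of_le_of_lt (not_lt.1 hc1) hlt
      have h1 : (p3 j).pr = (p j).pr := by
        rw [h3b j (not_lt.2 hηj.le), hp2pr j hηj.le]
      rw [h1] at hk
      have hjs := Cond.top_of_pr hk
      have hjη : lv j = η := le_antisymm (hlvη j hjs hj) (not_lt.1 hc1)
      have hjJ : j ∈ J := ⟨hjs, hrs, hjη, hηj⟩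
      have h2 : p3 j = p2 j := h3c j (not_lt.2 hηj.le) hc1
      have h3 : p3 c = p c := by
        rw [h3a c (by rw [hrc, hjη]; exact lt_irrefl _) hnrs]
        exact hp2co c (by rw [hrc, hjη]) fun h => hnrs h.2.1
      rw [h2, h3, hp2, hf2 j hjJ]
      simp only
      rw [List.length_append, List.length_map, List.length_range]
      have := hN j hjs k hk x c ε hx
      omega
  · intro i hi hrs
    rw [h3a i (hηnot i hi) hrs]
    exact hp2co i (hηle i hi) fun h => hrs h.2.1
  · intro j hj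
    rw [h3b j (hηnot j hj), hp2pr j (hηle j hj)]
  · intro j hj hlj
    rw [h3c j (hηnot j hj) (hηnot' j hlj)]
    refine hp2co j (hηle j hj) fun h => hlj ?_
    rw [h.2.2.1]
    exact hηU

theorem prep_Iio {lv : I → W} (hG : Good Γ lv) (ξ : W) : PrepOn Γ lv (Set.Iio ξ) := by
  induction ξ using WellFoundedLT.induction with
  | ind ξ ih =>
    exact prep_step hG (fun a (ha : a < ξ) b hb => lt_trans hb ha) fun η hη => ih η hη

/-- every condition can be prepared -/
theorem prep {lv : I → W} (hG : Good Γ lv) (p : Cond M rs) :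
    ∃ p', le Γ Set.univ p' p ∧ Prepared Γ lv Set.univ p' := by
  obtain ⟨p', h1, h2, -⟩ := prep_step hG (fun _ _ _ _ => Set.mem_univ _)
    (fun η _ => prep_Iio hG η) p
  exact ⟨p', h1, h2⟩

end Pool.Agent.H631.PC
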