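import Pool.Agent.H631.PC.Zfc

/-!
# The ideal of the sets covered by a null slalom
-/

set_option autoImplicit false
set_option linter.unusedSectionVars false

namespace Pool.Agent.H631.PC

open Classical Cardinal Filter Topology Pool.Agent.R165.Cof

/-- The space `∏ n, f n`. -/
abbrev XS (f : ℕ → ℕ) : Type := (n : ℕ) → Fin (f n)

/-- Null slaloms below `f`: the quotients `|φ n| / f n` tend to `0`. -/
def NullSlalom (f : ℕ → ℕ) (φ : (n : ℕ) → Finset (Fin (f n))) : Prop :=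
  Tendsto (fun n => ((φ n).card : ℝ) / (f n : ℝ)) atTop (𝓝 0)

/-- `[φ]`: the functions `x` with `x n ∈ φ n` for infinitely many `n`. -/
def Cap {f : ℕ → ℕ} (φ : (n : ℕ) → Finset (Fin (f n))) : Set (XS f) :=
  {x | ∃ᶠ n in atTop, x n ∈ φ n}

/-- The ideal `I_f`: the subsets of the sets `[φ]`, where `φ` is a null slalom below `f`. -/
def SlalIdeal (f : ℕ → ℕ) : Set (Set (XS f)) := {A | ∃ φ, NullSlalom f φ ∧ A ⊆ Cap φ}

/-- `add(I)`: the least size of a subfamily of `I` whose union is not in `I`. -/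
noncomputable def addNum {X : Type} (I : Set (Set X)) : Cardinal.{0} :=
  sInf {c | ∃ F : Set (Set X), F ⊆ I ∧ ⋃₀ F ∉ I ∧ #F = c}

variable {f : ℕ → ℕ}

theorem Cap_mono {φ ψ : (n : ℕ) → Finset (Fin (f n))} (N : ℕ) (h : ∀ n, N ≤ n → φ n ⊆ ψ n) :
    Cap φ ⊆ Cap ψ := by
  intro x hx
  refine (Frequently.and_eventually hx (eventually_ge_atTop N)).mono fun n hn => ?_
  exact h n hn.2 hn.1

/-- a modulus of convergence -/
theorem null_iff {φ : (n : ℕ) → Finset (Fin (f n))} (hf : ∀ n, 0 < f n) :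
    NullSlalom f φ ↔ ∀ v : ℕ, ∃ N, ∀ n, N ≤ n → (φ n).card * 4 ^ v ≤ f n := by
  constructor
  · intro h v
    have h1 : (0 : ℝ) < 1 / 4 ^ v := by positivity
    obtain ⟨N, hN⟩ := eventually_atTop.1 (h.eventually (eventually_lt_nhds h1))
    refine ⟨N, fun n hn => ?_⟩
    have h2 := hN n hn
    have h3 : (0 : ℝ) < f n := by exact_mod_cast hf n
    rw [div_lt_div_iff₀ h3 (by positivity)] at h2
    have h4 : ((φ n).card * 4 ^ v : ℝ) ≤ f n := by linarith
    exact_mod_cast h4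
  · intro h
    rw [NullSlalom, tendsto_order]
    refine ⟨fun a ha => Eventually.of_forall fun n => lt_of_lt_of_le ha (by positivity),
      fun a ha => ?_⟩
    obtain ⟨v, hv⟩ := exists_pow_lt_of_lt_one ha (show (1 / 4 : ℝ) < 1 by norm_num)
    obtain ⟨N, hN⟩ := h v
    refine eventually_atTop.2 ⟨N, fun n hn => lt_of_le_of_lt ?_ hv⟩
    have h3 : (0 : ℝ) < f n := by exact_mod_cast hf n
    rw [div_pow, one_pow, div_le_div_iff₀ h3 (by positivity)]
    have h4 : ((φ n).card * 4 ^ v : ℝ) ≤ f n := by exact_mod_cast hN n hn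
    linarith

/-- from a strictly increasing sequence: the number of the interval -/
noncomputable def idx (r : ℕ → ℕ) (n : ℕ) : ℕ := sSup {v | r v ≤ n}

theorem idx_spec {r : ℕ → ℕ} (hr : StrictMono r) {n : ℕ} (hn : r 0 ≤ n) :
    r (idx r n) ≤ n ∧ n < r (idx r n + 1) := by
  have hne : {v | r v ≤ n}.Nonempty := ⟨0, hn⟩
  have hbd : BddAbove {v | r v ≤ n} := ⟨n, fun v hv => (hr.id_le v).trans hv⟩
  refine ⟨Nat.sSup_mem hne hbd, ?_⟩
  by_contra hcon
  have h1 : idx r n + 1 ≤ idx r n := le_csSup hbd (not_lt.1 hcon)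
  omega

theorem le_idx {r : ℕ → ℕ} (hr : StrictMono r) {n v : ℕ} (hn : r v ≤ n) : v ≤ idx r n :=
  le_csSup ⟨n, fun w hw => (hr.id_le w).trans hw⟩ hn

/-- the restriction of a slalom -/
noncomputable def rstr (φ : (n : ℕ) → Finset (Fin (f n))) (p : ℕ → Prop) :
    (n : ℕ) → Finset (Fin (f n)) := fun n => if p n then φ n else ∅

/-- one of the two parts does not belong to the ideal -/
theorem half {J : Set (Set (XS f))} (hJ : IsIdeal J) {φ : (n : ℕ) → Finset (Fin (f n))}
    (h : Cap φ ∉ J) (m : ℕ → ℕ) : ∃ e : ℕ, Cap (rstr φ fun n => m n ≠ e) ∉ J := by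
  by_contra hcon
  push Not at hcon
  refine h (hJ.2.1 _ (hJ.2.2 _ (hcon 0) _ (hcon 1)) _ fun x hx => ?_)
  have h1 : ∃ᶠ n in atTop, (x n ∈ rstr φ (fun n => m n ≠ 0) n) ∨
      (x n ∈ rstr φ (fun n => m n ≠ 1) n) := by
    refine hx.mono fun n hn => ?_
    by_cases hm : m n = 0
    · right
      simp only [rstr, hm]
      rw [if_pos (by norm_num)]
      exact hn
    · left
      simp only [rstr]
      rw [if_pos hm]
      exact hn
  rcases frequently_or_distrib.1 h1 with h2 | h2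
  · exact Or.inl h2
  · exact Or.inr h2

theorem slal_lower : IsLowerFamily (SlalIdeal f) := by
  rintro A ⟨φ, hφ, hA⟩ B hB
  exact ⟨φ, hφ, hB.trans hA⟩

/-- `I_f` is closed under countable unions -/
theorem slal_iUnion (hf : ∀ n, 0 < f n) (A : ℕ → Set (XS f)) (hA : ∀ n, A n ∈ SlalIdeal f) :
    (⋃ n, A n) ∈ SlalIdeal f := by
  choose φ hφ hAφ using hA
  have h1 : ∀ m v, ∃ N, ∀ n, N ≤ n → ((Finset.range (m + 1)).sum fun i => (φ i n).card) * 4 ^ v ≤
      f n := by
    intro m v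
    have h2 : ∀ i, ∃ N, ∀ n, N ≤ n → (φ i n).card * 4 ^ (v + m + 1) ≤ f n := fun i =>
      (null_iff hf).1 (hφ i) _
    choose N hN using h2
    refine ⟨(Finset.range (m + 1)).sup N, fun n hn => ?_⟩
    have h3 : ((Finset.range (m + 1)).sum fun i => (φ i n).card) * 4 ^ (v + m + 1) ≤
        (m + 1) * f n := by
      rw [Finset.sum_mul]
      calc _ ≤ ∑ i ∈ Finset.range (m + 1), f n := by
            refine Finset.sum_le_sum fun i hi => hN i n ?_
            exact (Finset.le_sup hi).trans hn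
        _ = (m + 1) * f n := by simp
    have h4 : m + 1 ≤ 4 ^ (m + 1) := (Nat.lt_pow_self (by norm_num)).le
    have h5 : ((Finset.range (m + 1)).sum fun i => (φ i n).card) * 4 ^ v * 4 ^ (m + 1) ≤
        f n * 4 ^ (m + 1) := by
      calc _ = ((Finset.range (m + 1)).sum fun i => (φ i n).card) * 4 ^ (v + m + 1) := by
            rw [mul_assoc, ← pow_add, add_assoc]
        _ ≤ (m + 1) * f n := h3
        _ ≤ 4 ^ (m + 1) * f n := Nat.mul_le_mul_right _ h4
        _ = f n * 4 ^ (m + 1) := mul_comm _ _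
    exact Nat.le_of_mul_le_mul_right h5 (by positivity)
  choose N hN using h1
  -- a strictly increasing sequence
  let r : ℕ → ℕ := fun m => (Finset.range (m + 1)).sum fun i => N i i + 1
  have hr : StrictMono r := strictMono_nat_of_lt_succ fun m => by
    simp only [r]
    rw [Finset.sum_range_succ _ (m + 1)]
    omega
  have hrN : ∀ m, N m m ≤ r m := by
    intro m
    simp only [r]
    rw [Finset.sum_range_succ]
    omega
  let ψ : (n : ℕ) → Finset (Fin (f n)) := fun n =>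
    if r 0 ≤ n then (Finset.range (idx r n + 1)).biUnion fun i => φ i n else ∅
  refine ⟨ψ, (null_iff hf).2 fun v => ⟨r v, fun n hn => ?_⟩, ?_⟩
  · have hn0 : r 0 ≤ n := (hr.monotone (Nat.zero_le v)).trans hn
    simp only [ψ, if_pos hn0]
    have h2 := le_idx hr hn
    calc _ ≤ ((Finset.range (idx r n + 1)).sum fun i => (φ i n).card) * 4 ^ (idx r n) :=
          Nat.mul_le_mul Finset.card_biUnion_le (Nat.pow_le_pow_right (by norm_num) h2)
      _ ≤ f n := hN _ _ n ((hrN _).trans (idx_spec hr hn0).1)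
  · refine Set.iUnion_subset fun m => (hAφ m).trans ?_
    refine Cap_mono (r m) fun n hn => ?_
    have hn0 : r 0 ≤ n := (hr.monotone (Nat.zero_le m)).trans hn
    simp only [ψ, if_pos hn0]
    intro i hi
    have := le_idx hr hn
    exact Finset.mem_biUnion.2 ⟨m, Finset.mem_range.2 (by omega), hi⟩

theorem empty_mem_slal : ∅ ∈ SlalIdeal f := by
  refine ⟨fun _ => ∅, ?_, Set.empty_subset _⟩
  simp [NullSlalom]

theorem slal_sigma (hf : ∀ n, 0 < f n) : IsSigmaIdeal (SlalIdeal f) := by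
  refine ⟨⟨empty_mem_slal, slal_lower, fun A hA B hB => ?_⟩, slal_iUnion hf⟩
  have h3 := slal_iUnion hf (fun n => if n = 0 then A else B) (fun n => by
    split_ifs
    · exact hA
    · exact hB)
  refine slal_lower _ h3 _ (Set.union_subset ?_ ?_)
  · intro x hx
    exact Set.mem_iUnion.mpr ⟨0, by rw [if_pos rfl]; exact hx⟩
  · intro x hx
    exact Set.mem_iUnion.mpr ⟨1, by rw [if_neg one_ne_zero]; exact hx⟩

/-- the lower bound for the additivity -/
theorem aleph_one_le_add (hf : ∀ n, 0 < f n)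
    (hne : ∃ F : Set (Set (XS f)), F ⊆ SlalIdeal f ∧ ⋃₀ F ∉ SlalIdeal f) :
    ℵ₁ ≤ addNum (SlalIdeal f) := by
  obtain ⟨F, hF1, hF2⟩ := hne
  refine le_csInf ⟨#F, F, hF1, hF2, rfl⟩ ?_
  rintro c ⟨G, hG1, hG2, rfl⟩
  by_contra hcon
  rw [not_le, ← Cardinal.succ_aleph0, Order.lt_succ_iff,
    Cardinal.le_aleph0_iff_set_countable] at hcon
  apply hG2
  rcases G.eq_empty_or_nonempty with rfl | hne
  · rw [Set.sUnion_empty]
    exact empty_mem_slal
  · obtain ⟨e, rfl⟩ := hcon.exists_eq_range hne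
    rw [Set.sUnion_range]
    exact slal_iUnion hf e fun n => hG1 ⟨n, rfl⟩

/-- the family which is used for the upper bound -/
theorem not_covered (hf : StrictMono f) (hf0 : ∀ n, 0 < f n) {K : Type} (h : InfEqual K) :
    ∃ F : Set (Set (XS f)), F ⊆ SlalIdeal f ∧ ⋃₀ F ∉ SlalIdeal f ∧ #F ≤ #K := by
  obtain ⟨y, hy⟩ := h
  let z : K → XS f := fun l n => ⟨y l n % f n, Nat.mod_lt _ (hf0 n)⟩
  refine ⟨Set.range fun l => Cap fun n => {z l n}, ?_, ?_, Cardinal.mk_range_le⟩
  · rintro _ ⟨l, rfl⟩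
    refine ⟨_, (null_iff hf0).2 fun v => ⟨4 ^ v, fun n hn => ?_⟩, Set.Subset.rfl⟩
    rw [Finset.card_singleton, one_mul]
    exact hn.trans (hf.id_le n)
  · rintro ⟨φ, hφ, hsub⟩
    obtain ⟨N, hN⟩ := (null_iff hf0).1 hφ 1
    have h1 : ∀ n, ∃ i : Fin (f n), N ≤ n → i ∉ φ n := by
      intro n
      by_cases hn : N ≤ n
      · have h2 := hN n hn
        have h3 := hf0 n
        have h4 : (φ n).card < (Finset.univ : Finset (Fin (f n))).card := by
          rw [Finset.card_univ, Fintype.card_fin]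
          omega
        obtain ⟨i, _, hi⟩ := Finset.exists_mem_notMem_of_card_lt_card h4
        exact ⟨i, fun _ => hi⟩
      · exact ⟨⟨0, hf0 n⟩, fun h => absurd h hn⟩
    choose i hi using h1
    obtain ⟨l, hl⟩ := hy fun n => i n
    have h2 : i ∈ Cap fun n => {z l n} := by
      refine frequently_atTop.2 fun M => ?_
      obtain ⟨n, hn, hn'⟩ := hl M
      refine ⟨n, hn, Finset.mem_singleton.2 (Fin.ext ?_)⟩
      show (i n : ℕ) = y l n % f n
      rw [hn', Nat.mod_eq_of_lt (i n).2]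
    have h3 : i ∈ Cap φ := hsub (Set.mem_sUnion.2 ⟨_, ⟨l, rfl⟩, h2⟩)
    obtain ⟨n, hn, hn'⟩ := (frequently_atTop.1 h3) N
    exact hi n hn hn'

theorem add_slal (hf : StrictMono f) (hf0 : ∀ n, 0 < f n) {K : Type} [LinearOrder K]
    (hK : ∀ k : K, (Set.Iio k).Countable) (h : InfEqual K) : addNum (SlalIdeal f) = ℵ₁ := by
  obtain ⟨F, hF1, hF2, hF3⟩ := not_covered hf hf0 h
  refine le_antisymm ?_ (aleph_one_le_add hf0 ⟨F, hF1, hF2⟩)
  have h1 : addNum (SlalIdeal f) ≤ #F := csInf_le' ⟨F, hF1, hF2, rfl⟩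
  exact h1.trans (hF3.trans (mk_le_aleph_one hK))

end Pool.Agent.H631.PC
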