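import Pool.Agent.H631.PC.Slal

/-!
# The lower bound for `cofin⁻(I_f)`
-/

set_option autoImplicit false
set_option linter.unusedSectionVars false

namespace Pool.Agent.H631.PC

open Classical Cardinal Filter Topology Pool.Agent.R165.Cof

variable {f : ℕ → ℕ}

/-- uniform moduli -/
theorem uniform_modulus (hf0 : ∀ n, 0 < f n) {T C : Type} (h : PartlyCaptured T C)
    (J : T → Set (Set (XS f))) (hJ : ∀ k, IsIdeal (J k)) (hJf : ∀ k, ∃ A ∈ SlalIdeal f, A ∉ J k) :
    ∃ (R : ℕ → ℕ) (φ : T → (n : ℕ) → Finset (Fin (f n))), StrictMono R ∧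
      (∀ k v n, R v ≤ n → (φ k n).card * 4 ^ v ≤ f n) ∧ ∀ k, Cap (φ k) ∉ J k := by
  obtain ⟨d, hd⟩ := h.dominate
  choose A hA hAJ using hJf
  choose φ hφ hAφ using hA
  have hφJ : ∀ k, Cap (φ k) ∉ J k := fun k h => hAJ k ((hJ k).2.1 _ h _ (hAφ k))
  choose N hN using fun k => (null_iff hf0).1 (hφ k)
  -- strictly increasing moduli
  let r : T → ℕ → ℕ := fun k v => (Finset.range (v + 1)).sum fun i => N k i + 1
  have hr : ∀ k, StrictMono (r k) := fun k => strictMono_nat_of_lt_succ fun v => by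
    simp only [r]
    rw [Finset.sum_range_succ _ (v + 1)]
    omega
  have hrN : ∀ k v, N k v ≤ r k v := by
    intro k v
    simp only [r]
    rw [Finset.sum_range_succ]
    omega
  choose E hE using fun (k : T) (c : C) => half (hJ k) (hφJ k) fun n => d c (idx (r k) n)
  obtain ⟨g, hg⟩ := hd (fun k v => r k (v + 1)) E
  choose c M hM using hg
  let R : ℕ → ℕ := fun v => (Finset.range (v + 1)).sum fun w => g w + 1
  have hR : StrictMono R := strictMono_nat_of_lt_succ fun v => by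
    simp only [R]
    rw [Finset.sum_range_succ _ (v + 1)]
    omega
  have hRg : ∀ v, g v ≤ R v := by
    intro v
    simp only [R]
    rw [Finset.sum_range_succ]
    omega
  refine ⟨R, fun k => rstr (rstr (φ k) fun n => d (c k) (idx (r k) n) ≠ E k (c k))
    fun n => r k (M k) ≤ n, hR, ?_, ?_⟩
  · intro k v n hn
    simp only [rstr]
    split_ifs with h1 h2
    · have hn0 : r k 0 ≤ n := ((hr k).monotone (Nat.zero_le _)).trans h1
      obtain ⟨h3, h4⟩ := idx_spec (hr k) hn0
      have h5 : M k ≤ idx (r k) n := le_idx (hr k) h1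
      have h6 := hM k (idx (r k) n) h5 h2
      have h7 : R v < R (idx (r k) n) := by
        have := hRg (idx (r k) n)
        omega
      have h8 : v < idx (r k) n := hR.lt_iff_lt.1 h7
      calc _ ≤ (φ k n).card * 4 ^ (idx (r k) n) :=
            Nat.mul_le_mul_left _ (Nat.pow_le_pow_right (by norm_num) h8.le)
        _ ≤ f n := hN k _ n ((hrN k _).trans h3)
    · simp
    · simp
  · intro k h
    apply hE k (c k)
    refine (hJ k).2.1 _ h _ (Cap_mono (r k (M k)) fun n hn => ?_)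
    simp only [rstr]
    rw [if_pos hn]

/-- the section of a coded finite set -/
noncomputable def sect (f : ℕ → ℕ) (u n : ℕ) : Finset (Fin (f n)) :=
  Finset.univ.filter fun i : Fin (f n) =>
    (n, (i : ℕ)) ∈ ((Encodable.decode (α := Finset (ℕ × ℕ)) u).getD ∅)

theorem exists_code (R : ℕ → ℕ) (φ : (n : ℕ) → Finset (Fin (f n))) (v : ℕ) :
    ∃ u, ∀ n, R v ≤ n → n < R (v + 1) → sect f u n = φ n := by
  let s : Finset (ℕ × ℕ) := (Finset.Ico (R v) (R (v + 1))).biUnion fun n =>
    (φ n).image (fun i : Fin (f n) => ((n, (i : ℕ)) : ℕ × ℕ))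
  refine ⟨Encodable.encode s, fun n hn hn' => ?_⟩
  ext i
  simp only [sect, Encodable.encodek, Option.getD_some, Finset.mem_filter, Finset.mem_univ,
    true_and, s, Finset.mem_biUnion, Finset.mem_Ico, Finset.mem_image, Prod.mk.injEq]
  constructor
  · rintro ⟨m, -, j, hj, rfl, h⟩
    rwa [Fin.ext h] at hj
  · intro hi
    exact ⟨n, ⟨hn, hn'⟩, i, hi, rfl, rfl⟩

/-- A sequence of ideals which do not contain `I_f` does not have the union `I_f`. -/
theorem not_union (hf0 : ∀ n, 0 < f n) {T C : Type} (h : PartlyCaptured T C)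
    (J : T → Set (Set (XS f))) (hJ : ∀ k, IsIdeal (J k)) (hJf : ∀ k, ∃ A ∈ SlalIdeal f, A ∉ J k) :
    ∃ A ∈ SlalIdeal f, ∀ k, A ∉ J k := by
  obtain ⟨R, φ, hR, hφR, hφJ⟩ := uniform_modulus hf0 h J hJ hJf
  obtain ⟨d, hd⟩ := h.capture
  choose E hE using fun (k : T) (c : C) => half (hJ k) (hφJ k) fun n => d c (idx R n)
  choose x hx using fun (k : T) (v : ℕ) => exists_code R (φ k) v
  obtain ⟨S, hS, hcap⟩ := hd x E
  choose c M hM using hcap
  let ψ : (n : ℕ) → Finset (Fin (f n)) := fun n => if R 0 ≤ n then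
    (S (idx R n)).biUnion fun u =>
      if (sect f u n).card * 4 ^ (idx R n) ≤ f n then sect f u n else ∅ else ∅
  have hψ : NullSlalom f ψ := by
    rw [null_iff hf0]
    intro v
    refine ⟨R (v + v + 1), fun n hn => ?_⟩
    have hn0 : R 0 ≤ n := (hR.monotone (Nat.zero_le _)).trans hn
    simp only [ψ, if_pos hn0]
    set m := idx R n with hm
    have hvm : v + v + 1 ≤ m := le_idx hR hn
    have h1 : ((S m).biUnion fun u =>
        if (sect f u n).card * 4 ^ m ≤ f n then sect f u n else ∅).card * 4 ^ m ≤ m * f n := by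
      calc _ ≤ ((S m).sum fun u =>
            (if (sect f u n).card * 4 ^ m ≤ f n then sect f u n else ∅).card) * 4 ^ m :=
            Nat.mul_le_mul_right _ Finset.card_biUnion_le
        _ = (S m).sum fun u =>
            (if (sect f u n).card * 4 ^ m ≤ f n then sect f u n else ∅).card * 4 ^ m := by
            rw [Finset.sum_mul]
        _ ≤ (S m).sum fun _ => f n := by
            refine Finset.sum_le_sum fun u _ => ?_
            split_ifs with h2
            · exact h2
            · simp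
        _ = (S m).card * f n := by simp
        _ ≤ m * f n := Nat.mul_le_mul_right _ (hS m)
    -- `m * 4 ^ v ≤ 4 ^ m`
    have h2 : m * 4 ^ v ≤ 4 ^ m := by
      have h3 : m ≤ 2 ^ m := (Nat.lt_pow_self (by norm_num)).le
      have h4 : (4 : ℕ) ^ v ≤ 2 ^ m := by
        rw [show (4 : ℕ) = 2 ^ 2 by norm_num, ← pow_mul]
        exact Nat.pow_le_pow_right (by norm_num) (by omega)
      calc m * 4 ^ v ≤ 2 ^ m * 2 ^ m := Nat.mul_le_mul h3 h4
        _ = 4 ^ m := by
            rw [← mul_pow]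
            norm_num
    set b := ((S m).biUnion fun u =>
        if (sect f u n).card * 4 ^ m ≤ f n then sect f u n else ∅).card with hb
    have h5 : b * 4 ^ v * 4 ^ m ≤ f n * 4 ^ m := by
      calc b * 4 ^ v * 4 ^ m = (b * 4 ^ m) * 4 ^ v := by ring
        _ ≤ (m * f n) * 4 ^ v := Nat.mul_le_mul_right _ h1
        _ = (m * 4 ^ v) * f n := by ring
        _ ≤ 4 ^ m * f n := Nat.mul_le_mul_right _ h2
        _ = f n * 4 ^ m := by ring
    exact Nat.le_of_mul_le_mul_right h5 (by positivity)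
  refine ⟨Cap ψ, ⟨ψ, hψ, Set.Subset.rfl⟩, fun k hk => ?_⟩
  apply hE k (c k)
  refine (hJ k).2.1 _ hk _ (Cap_mono (R (M k)) fun n hn => ?_)
  have hn0 : R 0 ≤ n := (hR.monotone (Nat.zero_le _)).trans hn
  obtain ⟨h3, h4⟩ := idx_spec hR hn0
  simp only [rstr, ψ, if_pos hn0]
  split_ifs with h2
  · intro i hi
    refine Finset.mem_biUnion.2 ⟨x k (idx R n), hM k _ (le_idx hR hn) h2, ?_⟩
    rw [hx k _ n h3 h4, if_pos (hφR k _ n h3)]
    exact hi
  · exact Finset.empty_subset _

/-- the lower bound for `cofin⁻` -/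
theorem lt_cofinMinus (hf0 : ∀ n, 0 < f n) {T C : Type} (h : PartlyCaptured T C) [Nonempty T]
    {γ : Ordinal.{0}} (hγ : HasSeq IsIdeal (fun _ => True) (SlalIdeal f) γ) :
    #T < γ.card := by
  by_contra hcon
  rw [not_lt] at hcon
  obtain ⟨hlim, F, hF1, -, hF2, hF3⟩ := hγ
  have hne : Nonempty γ.ToType := by
    rw [Ordinal.nonempty_toType_iff]
    rintro rfl
    exact absurd hlim.1 (by simp [isMin_iff_eq_bot])
  rw [← Cardinal.mk_toType] at hcon
  obtain ⟨g⟩ := hcon
  let t : T → γ.ToType := Function.invFun g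
  have ht : Function.Surjective t := Function.invFun_surjective g.injective
  let o : T → Ordinal.{0} := fun k => ((Ordinal.ToType.mk.symm (t k) : Set.Iio γ) : Ordinal.{0})
  have ho : ∀ k, o k < γ := fun k => (Ordinal.ToType.mk.symm (t k) : Set.Iio γ).2
  obtain ⟨A, hA, hAF⟩ := not_union hf0 h (fun k => F (o k)) (fun k => hF1 _ (ho k)) (by
    intro k
    have h2 := hF2 (o k) (Order.succ (o k)) (Order.lt_succ _) (hlim.succ_lt (ho k))
    obtain ⟨A, hA1, hA2⟩ := Set.exists_of_ssubset h2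
    refine ⟨A, ?_, hA2⟩
    rw [hF3]
    exact ⟨_, hlim.succ_lt (ho k), hA1⟩)
  rw [hF3] at hA
  obtain ⟨α, hα, hαA⟩ := hA
  obtain ⟨k, hk⟩ := ht (Ordinal.ToType.mk ⟨α, hα⟩)
  apply hAF k
  have h3 : o k = α := by
    simp only [o, hk, OrderIso.symm_apply_apply]
  rw [h3]
  exact hαA

/-- The combinatorial statement implies that the gap is large. -/
theorem gap (hf : StrictMono f) (hf0 : ∀ n, 0 < f n) {K C : Type} {T : ℕ → Type} [LinearOrder K]
    (hK : ∀ k : K, (Set.Iio k).Countable) (hT : ∀ n, Infinite (T n)) (h : PhiFor K C T) :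
    addNum (SlalIdeal f) = ℵ_ 1 ∧
      ((ℵ_ (1 + Ordinal.omega0)).ord : WithTop Ordinal.{0}) ≤ cofinMinus (SlalIdeal f) ∧
      ((#(T 0)).ord : WithTop Ordinal.{0}) < cofinMinus (SlalIdeal f) := by
  obtain ⟨h1, h2, h3⟩ := h
  have h4 : Cardinal.aleph Ordinal.omega0 ≤ #(Σ n, T n) := aleph_omega_le hT h3
  have hne : Nonempty (Σ n, T n) := ⟨⟨0, (hT 0).nonempty.some⟩⟩
  have h5 : ∀ γ, HasSeq IsIdeal (fun _ => True) (SlalIdeal f) γ → #(Σ n, T n) < γ.card :=
    fun γ hγ => lt_cofinMinus hf0 h2 hγ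
  have h6 : (((Order.succ #(Σ n, T n)).ord : Ordinal.{0}) : WithTop Ordinal.{0}) ≤
      cofinMinus (SlalIdeal f) := by
    refine le_cofinWith fun γ hγ => ?_
    rw [Cardinal.ord_le]
    exact Order.succ_le_of_lt (h5 γ hγ)
  have h7 : #(T 0) ≤ #(Σ n, T n) :=
    Cardinal.mk_le_of_injective (f := fun x : T 0 => (⟨0, x⟩ : Σ n, T n)) fun x y h => by
      simpa using h
  refine ⟨add_slal hf hf0 hK h1, ?_, ?_⟩
  · rw [Ordinal.one_add_omega0]
    refine le_trans (WithTop.coe_le_coe.2 (Cardinal.ord_le_ord.2 ?_)) h6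
    exact h4.trans (Order.le_succ _)
  · refine lt_of_lt_of_le (WithTop.coe_lt_coe.2 (Cardinal.ord_lt_ord.2 ?_)) h6
    exact h7.trans_lt (Order.lt_succ _)

end Pool.Agent.H631.PC
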