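import Pool.Agent.H631.PC.Zfc
import Pool.Graph.R_seed8.R165.Cof.K

/-!
# Consequences of the combinatorial statement for the variants of `cofin`
-/

set_option autoImplicit false
set_option linter.unusedSectionVars false

namespace Pool.Agent.H631.PC

open Classical Cardinal Filter Topology Pool.Agent.R165.Cof

/-- the function `f` outside of the set of all `k` with `d k = e` -/
noncomputable def cutF (f d : ℕ → ℕ) (e : ℕ) : ℕ → ℕ := fun k => if d k = e then 0 else f k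

/-- finitely many parts cover `Bn n f` -/
theorem Bn_cover (n : ℕ) (f d : ℕ → ℕ) :
    Bn n f ⊆ ⋃ e ∈ Finset.range (n + 1), Bn n (cutF f d e) := by
  intro x hx
  -- every coordinate excludes at most one part
  have h1 : ∀ i, i < n → ∀ e e', e ≠ e' → x i ∈ Bs (cutF f d e) ∨ x i ∈ Bs (cutF f d e') := by
    intro i hi e e' hne
    have h2 : ∃ᶠ k in atTop, (x i k ≤ cutF f d e k) ∨ (x i k ≤ cutF f d e' k) := by
      have h3 : ∃ᶠ k in atTop, x i k ≤ f k := hx i hi
      refine h3.mono fun k hk => ?_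
      by_cases hd : d k = e
      · right
        have : d k ≠ e' := fun h => hne (hd.symm.trans h)
        simp only [cutF, if_neg this]
        exact hk
      · left
        simp only [cutF, if_neg hd]
        exact hk
    exact frequently_or_distrib.1 h2
  have hbad : ∀ i, ∃ b, i < n → ∀ e, e ≠ b → x i ∈ Bs (cutF f d e) := by
    intro i
    by_cases h : ∃ b, x i ∉ Bs (cutF f d b)
    · obtain ⟨b, hb⟩ := h
      exact ⟨b, fun hi e he => (h1 i hi e b he).resolve_right hb⟩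
    · push Not at h
      exact ⟨0, fun _ e _ => h e⟩
  choose b hb using hbad
  have hcard : ((Finset.range n).image b).card < (Finset.range (n + 1)).card := by
    refine Finset.card_image_le.trans_lt ?_
    simp
  obtain ⟨e, he, he'⟩ := Finset.exists_mem_notMem_of_card_lt_card hcard
  refine Set.mem_iUnion₂.2 ⟨e, he, fun i hi => hb i hi e fun h => he' ?_⟩
  exact Finset.mem_image.2 ⟨i, Finset.mem_range.2 hi, h.symm⟩

/-- The main lemma on ideals. -/
theorem lemmaPC {n : ℕ} {T C : Type} (h : PartlyCaptured T C)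
    (I : T → Set (Set (ℕ → ℕ → ℕ))) (hI : ∀ s, IsIdeal (I s)) (hB : ∀ f, ∃ s, Bn n f ∈ I s) :
    ∃ s, ∀ f, Bn n f ∈ I s := by
  by_contra hcon
  push Not at hcon
  choose f hf using hcon
  obtain ⟨d, hd⟩ := h.dominate
  have h1 : ∀ (s : T) (c : C), ∃ e, Bn n (cutF (f s) (d c) e) ∉ I s := by
    intro s c
    by_contra hcon
    push Not at hcon
    refine hf s ((hI s).2.1 _ ?_ _ (Bn_cover n (f s) (d c)))
    have key : ∀ F : Finset ℕ, (⋃ e ∈ F, Bn n (cutF (f s) (d c) e)) ∈ I s := by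
      intro F
      induction F using Finset.induction_on with
      | empty => simpa using (hI s).1
      | insert e F _ ih =>
        rw [Finset.set_biUnion_insert]
        exact (hI s).2.2 _ (hcon e) _ ih
    exact key _
  choose E hE using h1
  obtain ⟨g, hg⟩ := hd f E
  obtain ⟨s, hs⟩ := hB g
  obtain ⟨c, N, hN⟩ := hg s
  refine hE s c ((hI s).2.1 _ hs _ (Bn_mono ?_ n))
  filter_upwards [eventually_ge_atTop N] with k hk
  simp only [cutF]
  split_ifs with h2
  · exact Nat.zero_le _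
  · exact hN k hk h2

/-- a map onto the index set -/
theorem exists_onto {T : Type} {γ : Ordinal.{0}} (hγ : γ ≠ 0) (hcon : γ.card ≤ #T) :
    ∃ o : T → Ordinal.{0}, (∀ k, o k < γ) ∧ ∀ α < γ, ∃ k, o k = α := by
  have hne : Nonempty γ.ToType := by
    rw [Ordinal.nonempty_toType_iff]
    exact hγ
  rw [← Cardinal.mk_toType] at hcon
  obtain ⟨g⟩ := hcon
  let t : T → γ.ToType := Function.invFun g
  have ht : Function.Surjective t := Function.invFun_surjective g.injective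
  refine ⟨fun k => ((Ordinal.ToType.mk.symm (t k) : Set.Iio γ) : Ordinal.{0}),
    fun k => (Ordinal.ToType.mk.symm (t k) : Set.Iio γ).2, fun α hα => ?_⟩
  obtain ⟨k, hk⟩ := ht (Ordinal.ToType.mk ⟨α, hα⟩)
  exact ⟨k, by simp only [hk, OrderIso.symm_apply_apply]⟩

theorem ne_zero_of_limit {γ : Ordinal.{0}} (h : Order.IsSuccLimit γ) : γ ≠ 0 := by
  rintro rfl
  exact absurd h.1 (by simp [isMin_iff_eq_bot])

/-- The lower bound for sequences of ideals with the union `J1`. -/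
theorem lt_J1 {T C : Type} (h : PartlyCaptured T C) {γ : Ordinal.{0}}
    (hs : HasSeq IsIdeal (fun _ => True) J1 γ) : #T < γ.card := by
  by_contra hcon
  rw [not_lt] at hcon
  obtain ⟨hγ, F, hF1, -, hF2, hF3⟩ := hs
  obtain ⟨o, ho, ho'⟩ := exists_onto (ne_zero_of_limit hγ) hcon
  obtain ⟨s, hs⟩ := lemmaPC (n := 1) h (fun s => F (o s)) (fun s => hF1 _ (ho s)) (by
    intro f
    have h1 : Bn 1 f ∈ J1 := ⟨f, Set.Subset.rfl⟩
    rw [hF3] at h1
    obtain ⟨α, hα, hαf⟩ := h1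
    obtain ⟨k, rfl⟩ := ho' α hα
    exact ⟨k, hαf⟩)
  have h2 := hF2 (o s) (Order.succ (o s)) (Order.lt_succ _) (hγ.succ_lt (ho s))
  obtain ⟨A, hA1, hA2⟩ := Set.exists_of_ssubset h2
  have h3 : A ∈ J1 := by
    rw [hF3]
    exact ⟨_, hγ.succ_lt (ho s), hA1⟩
  obtain ⟨f, hf⟩ := h3
  exact hA2 ((hF1 _ (ho s)).2.1 _ (hs f) _ hf)

/-- The lower bound for sequences of `σ`-ideals with the union `J2`. -/
theorem lt_J2 {T C : Type} (h : PartlyCaptured T C) {γ : Ordinal.{0}}
    (hs : HasSeq IsSigmaIdeal (fun _ => True) J2 γ) : #T < γ.card := by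
  by_contra hcon
  rw [not_lt] at hcon
  obtain ⟨hγ, F, hF1, -, hF2, hF3⟩ := hs
  obtain ⟨o, ho, ho'⟩ := exists_onto (ne_zero_of_limit hγ) hcon
  have hmono : ∀ α β, α ≤ β → β < γ → F α ⊆ F β := by
    intro α β hαβ hβ
    rcases hαβ.lt_or_eq with h | rfl
    · exact (hF2 α β h hβ).subset
    · exact Set.Subset.rfl
  have key : ∀ n : ℕ, ∃ α < γ, ∀ f, ({n} ×ˢ Bn (n + 1) f : Set (ℕ × (ℕ → ℕ → ℕ))) ∈ F α := by
    intro n
    obtain ⟨s, hs⟩ := lemmaPC (n := n + 1) h
      (fun s => {A : Set (ℕ → ℕ → ℕ) | ({n} ×ˢ A : Set (ℕ × (ℕ → ℕ → ℕ))) ∈ F (o s)}) (by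
        intro s
        have h1 := (hF1 (o s) (ho s)).1
        refine ⟨?_, fun A hA B hB => ?_, fun A hA B hB => ?_⟩
        · change ({n} ×ˢ ∅ : Set (ℕ × (ℕ → ℕ → ℕ))) ∈ F (o s)
          rw [Set.prod_empty]
          exact h1.1
        · exact h1.2.1 _ hA _ (Set.prod_mono_right hB)
        · change ({n} ×ˢ (A ∪ B) : Set (ℕ × (ℕ → ℕ → ℕ))) ∈ F (o s)
          rw [Set.prod_union]
          exact h1.2.2 _ hA _ hB) (by
        intro f
        have h1 : ({n} ×ˢ Bn (n + 1) f : Set (ℕ × (ℕ → ℕ → ℕ))) ∈ J2 := by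
          intro m
          refine ⟨f, fun x hx => ?_⟩
          obtain ⟨hm1, hm2⟩ := hx
          obtain rfl : m = n := hm1
          exact hm2
        rw [hF3] at h1
        obtain ⟨α, hα, hαf⟩ := h1
        obtain ⟨k, rfl⟩ := ho' α hα
        exact ⟨k, hαf⟩)
    exact ⟨_, ho s, hs⟩
  choose a haγ ha using key
  by_cases hb : ∃ β < γ, ∀ n, a n ≤ β
  · obtain ⟨β, hβ, hab⟩ := hb
    have h2 := hF2 β (Order.succ β) (Order.lt_succ β) (hγ.succ_lt hβ)
    obtain ⟨A, hA1, hA2⟩ := Set.exists_of_ssubset h2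
    have h3 : A ∈ J2 := by
      rw [hF3]
      exact ⟨_, hγ.succ_lt hβ, hA1⟩
    choose f hf using h3
    refine hA2 ((hF1 β hβ).1.2.1 _ ((hF1 β hβ).2 (fun n => {n} ×ˢ Bn (n + 1) (f n))
      fun n => hmono _ _ (hab n) hβ (ha n (f n))) _ ?_)
    rintro ⟨n, x⟩ hx
    exact Set.mem_iUnion.mpr ⟨n, rfl, hf n hx⟩
  · push Not at hb
    have h4 : ∀ n, ∃ A ∈ J2, A ∉ F (a n) := by
      intro n
      have h2 := hF2 (a n) (Order.succ (a n)) (Order.lt_succ _) (hγ.succ_lt (haγ n))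
      obtain ⟨A, hA1, hA2⟩ := Set.exists_of_ssubset h2
      refine ⟨A, ?_, hA2⟩
      rw [hF3]
      exact ⟨_, hγ.succ_lt (haγ n), hA1⟩
    choose A hA1 hA2 using h4
    have h5 := J2_iUnion A hA1
    rw [hF3] at h5
    obtain ⟨β, hβ, hβA⟩ := h5
    obtain ⟨n, hn⟩ := hb β hβ
    exact hA2 n (hmono β (a n) hn.le (haγ n) ((hF1 β hβ).1.2.1 _ hβA _
      (Set.subset_iUnion A n)))

/-- the bounding number is at most `ℵ₁` -/
theorem bnum_le {K : Type} [LinearOrder K] (hK : ∀ k : K, (Set.Iio k).Countable)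
    (h : InfEqual K) : bnum ≤ ℵ₁ := by
  obtain ⟨y, hy⟩ := h
  have h1 : bnum ≤ #(Set.range y) := by
    refine csInf_le' ⟨Set.range y, rfl, ?_⟩
    rintro ⟨g, hg⟩
    obtain ⟨l, hl⟩ := hy fun n => g n + 1
    obtain ⟨N, hN⟩ := eventually_atTop.1 (hg (y l) ⟨l, rfl⟩)
    obtain ⟨n, hn, hn'⟩ := hl N
    have := hN n hn
    omega
  exact h1.trans (Cardinal.mk_range_le.trans (mk_le_aleph_one hK))

/-- The combinatorial statement implies the strict inequalities. -/
theorem variants {K C : Type} {T : ℕ → Type} [LinearOrder K]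
    (hK : ∀ k : K, (Set.Iio k).Countable) (hT : ∀ n, Infinite (T n)) (h : PhiFor K C T) :
    cofinStar J1 < cofinMinus J1 ∧ cofinMinus J2 < cofin J2 := by
  obtain ⟨h1, h2, h3⟩ := h
  have h4 : Cardinal.aleph Ordinal.omega0 ≤ #(Σ n, T n) := aleph_omega_le hT h3
  have h5 : ℵ₁ ≤ #(Σ n, T n) := by
    refine le_trans ?_ h4
    exact Cardinal.aleph_le_aleph.2 (Ordinal.one_lt_omega0.le)
  have hb := bnum_le hK h1
  have key : (bnum.ord : WithTop Ordinal.{0}) < ((Order.succ #(Σ n, T n)).ord : Ordinal.{0}) :=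
    WithTop.coe_lt_coe.2 (Cardinal.ord_lt_ord.2 ((hb.trans h5).trans_lt (Order.lt_succ _)))
  constructor
  · refine J1_star.trans_lt (key.trans_le (le_cofinWith fun γ hγ => ?_))
    rw [Cardinal.ord_le]
    exact Order.succ_le_of_lt (lt_J1 h2 hγ)
  · refine J2_minus.trans_lt (key.trans_le (le_cofinWith fun γ hγ => ?_))
    rw [Cardinal.ord_le]
    exact Order.succ_le_of_lt (lt_J2 h2 hγ)

end Pool.Agent.H631.PC
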