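import Pool.Agent.H631.PC.Stm
import Pool.Graph.R_seed8.R165.Cof.Defs

/-!
# Consequences of the combinatorial statement: general part
-/

set_option autoImplicit false
set_option linter.unusedSectionVars false

namespace Pool.Agent.H631.PC

open Classical Cardinal Filter Pool.Agent.R165.Cof

theorem slalom_finset {S : ℕ → ℕ → Prop} (hS : Slalom (fun n => n) S) :
    ∃ F : ℕ → Finset ℕ, ∀ n, (F n).card ≤ n ∧ ∀ v, v ∈ F n ↔ S n v := by
  have h : ∀ n, ∃ F : Finset ℕ, F.card ≤ n ∧ ∀ v, v ∈ F ↔ S n v := by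
    intro n
    have hfin : {v | S n v}.Finite := by
      by_contra hcon
      obtain ⟨t, ht, hc⟩ := Set.Infinite.exists_subset_card_eq hcon (n + 1)
      obtain ⟨v, hv, hv'⟩ := hS n t (by simp only [hc]; omega)
      exact hv' (ht hv)
    refine ⟨hfin.toFinset, ?_, fun v => by simp⟩
    by_contra hcon
    obtain ⟨v, hv, hv'⟩ := hS n hfin.toFinset (not_le.1 hcon)
    exact hv' (by simpa using hv)
  choose F hF using h
  exact ⟨F, hF⟩

/-- the version with finite sets -/
theorem PartlyCaptured.capture {T C : Type} (h : PartlyCaptured T C) :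
    ∃ d : C → ℕ → ℕ, ∀ (x : T → ℕ → ℕ) (E : T → C → ℕ),
      ∃ S : ℕ → Finset ℕ, (∀ n, (S n).card ≤ n) ∧
        ∀ k, ∃ c, ∃ N, ∀ n, N ≤ n → d c n ≠ E k c → x k n ∈ S n := by
  obtain ⟨d, h⟩ := h
  refine ⟨d, fun x E => ?_⟩
  obtain ⟨S, hS, h⟩ := h x E
  obtain ⟨F, hF⟩ := slalom_finset hS
  refine ⟨F, fun n => (hF n).1, fun k => ?_⟩
  obtain ⟨c, N, hN⟩ := h k
  exact ⟨c, N, fun n hn hd => ((hF n).2 _).2 (hN n hn hd)⟩

/-- partial domination -/
theorem PartlyCaptured.dominate {T C : Type} (h : PartlyCaptured T C) :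
    ∃ d : C → ℕ → ℕ, ∀ (x : T → ℕ → ℕ) (E : T → C → ℕ),
      ∃ g : ℕ → ℕ, ∀ k, ∃ c, ∃ N, ∀ n, N ≤ n → d c n ≠ E k c → x k n ≤ g n := by
  obtain ⟨d, h⟩ := h.capture
  refine ⟨d, fun x E => ?_⟩
  obtain ⟨S, -, h⟩ := h x E
  refine ⟨fun n => (S n).sup id, fun k => ?_⟩
  obtain ⟨c, N, hN⟩ := h k
  exact ⟨c, N, fun n hn hd => Finset.le_sup (f := id) (hN n hn hd)⟩

/-- the index set of the family is uncountable -/
theorem InfEqual.uncountable {K : Type} (h : InfEqual K) : Uncountable K := by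
  obtain ⟨y, hy⟩ := h
  by_contra hcon
  rw [not_uncountable_iff] at hcon
  rcases isEmpty_or_nonempty K with hK | hK
  · obtain ⟨l, -⟩ := hy fun _ => 0
    exact hK.elim l
  obtain ⟨e, he⟩ := exists_surjective_nat K
  obtain ⟨l, hl⟩ := hy fun n => (Finset.range (n + 1)).sup (fun i => y (e i) n) + 1
  obtain ⟨i, rfl⟩ := he l
  obtain ⟨n, hn, hn'⟩ := hl i
  have h1 : y (e i) n ≤ (Finset.range (n + 1)).sup fun i => y (e i) n :=
    Finset.le_sup (f := fun i => y (e i) n) (Finset.mem_range.2 (by omega))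
  omega

theorem mk_le_aleph_one {K : Type} [LinearOrder K]
    (hK : ∀ k : K, (Set.Iio k).Countable) : #K ≤ ℵ₁ := by
  by_contra hcon
  rw [not_le] at hcon
  obtain ⟨f⟩ : Nonempty ((ℵ₁ : Cardinal.{0}).ord.ToType ↪ K) := by
    rw [← Cardinal.le_def, Cardinal.mk_ord_toType]
    exact hcon.le
  have h1 : #(Set.range f) < #K := by
    rw [Cardinal.mk_range_eq f f.injective, Cardinal.mk_ord_toType]
    exact hcon
  by_cases hb : ∃ k, ∀ i, f i < k
  · obtain ⟨k, hk⟩ := hb
    have h2 : Set.range f ⊆ Set.Iio k := by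
      rintro _ ⟨i, rfl⟩
      exact hk i
    have h3 := (hK k).mono h2
    rw [← Cardinal.le_aleph0_iff_set_countable, Cardinal.mk_range_eq f f.injective,
      Cardinal.mk_ord_toType] at h3
    exact absurd h3 (not_le.2 Cardinal.aleph0_lt_aleph_one)
  · push Not at hb
    have h2 : (Set.univ : Set K) ⊆ ⋃ i, Set.Iic (f i) := by
      intro k _
      obtain ⟨i, hi⟩ := hb k
      exact Set.mem_iUnion.2 ⟨i, hi⟩
    have h3 : #K ≤ ℵ₁ := by
      rw [← Cardinal.mk_univ]
      refine (Cardinal.mk_le_mk_of_subset h2).trans ((Cardinal.mk_iUnion_le _).trans ?_)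
      rw [Cardinal.mk_ord_toType]
      refine (mul_le_mul' le_rfl (ciSup_le' (a := ℵ₀) fun i => ?_)).trans
        (Cardinal.mul_aleph0_eq Cardinal.aleph0_lt_aleph_one.le).le
      have h4 : Set.Iic (f i) = insert (f i) (Set.Iio (f i)) := by
        ext β
        simp only [Set.mem_Iic, Set.mem_insert_iff, Set.mem_Iio]
        exact le_iff_eq_or_lt
      rw [h4, Cardinal.le_aleph0_iff_set_countable]
      exact (hK (f i)).insert (f i)
    exact absurd h3 (not_le.2 hcon)

/-- the size of the sum -/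
theorem aleph_omega_le {T : ℕ → Type} (h0 : ∀ n, Infinite (T n))
    (h : ∀ n, NotOnto (T n) (T (n + 1))) : Cardinal.aleph Ordinal.omega0 ≤ #(Σ n, T n) := by
  have h1 : ∀ n, #(T n) < #(T (n + 1)) := by
    intro n
    by_contra hcon
    rw [not_lt] at hcon
    refine h n ?_
    obtain ⟨g⟩ := hcon
    have : Nonempty (T (n + 1)) := (h0 (n + 1)).nonempty
    exact ⟨Function.invFun g, fun y => ⟨g y, Function.leftInverse_invFun g.injective y⟩⟩
  have h2 : ∀ n : ℕ, Cardinal.aleph n ≤ #(T n) := by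
    intro n
    induction n with
    | zero =>
      have := h0 0
      simp
    | succ n ih =>
      have h3 : Cardinal.aleph ((n + 1 : ℕ) : Ordinal) = Order.succ (Cardinal.aleph (n : Ordinal)) := by
        rw [Cardinal.succ_aleph]
        push_cast
        rfl
      rw [h3]
      exact Order.succ_le_of_lt (ih.trans_lt (h1 n))
  rw [Cardinal.aleph_limit Ordinal.isSuccLimit_omega0]
  refine ciSup_le' ?_
  rintro ⟨o, ho⟩
  obtain ⟨n, rfl⟩ := Ordinal.lt_omega0.1 ho
  refine (h2 n).trans ?_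
  exact Cardinal.mk_le_of_injective (f := fun x : T n => (⟨n, x⟩ : Σ n, T n)) fun x y h => by
    simpa using h

end Pool.Agent.H631.PC
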